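import Pool.Agent.J6H32.RU.Grp

/-!
# Rubin's conjecture and Frobenius classes: algebra

For a family `y_i + ∑ a_it Λ_t` of homomorphisms the product of the `δ_t` and the determinant is the
determinant of a block matrix with entries `δ_t`, `δ_t Λ_t`, `a_it`, `y_i`.
-/

set_option autoImplicit false
set_option linter.unusedSectionVars false

open Filter Topology

noncomputable section

namespace Pool.Agent.J6H32.RT

open Pool.Agent.K3h30.RS Pool.Agent.J6H32.RU

section det

variable {R ι : Type} [CommRing R] [Fintype ι] [DecidableEq ι] {r : ℕ}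

/-- the block matrix -/
def blk (δ : ι → R) (c : ι → Fin r → R) (A : Fin r → ι → R) (Y : Fin r → Fin r → R) :
    Matrix (ι ⊕ Fin r) (ι ⊕ Fin r) R :=
  Matrix.fromBlocks (Matrix.diagonal δ) (Matrix.of fun t j => - c t j) (Matrix.of A) (Matrix.of Y)

theorem prod_mul_det (δ : ι → R) (l : ι → Fin r → R) (A : Fin r → ι → R)
    (Y : Fin r → Fin r → R) :
    (∏ t, δ t) * Matrix.det (Matrix.of fun i j => Y i j + ∑ t, A i t * l t j) =
      (blk δ (fun t j => δ t * l t j) A Y).det := by
  have h1 : blk δ (fun t j => δ t * l t j) A Y =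
      Matrix.fromBlocks (Matrix.diagonal δ) 0 0 (1 : Matrix (Fin r) (Fin r) R) *
      Matrix.fromBlocks 1 (Matrix.of fun t j => - l t j) (Matrix.of A) (Matrix.of Y) := by
    rw [Matrix.fromBlocks_multiply]
    unfold blk
    congr 1
    · simp
    · ext t j
      simp
    · simp
    · simp
  rw [h1, Matrix.det_mul, Matrix.det_fromBlocks_zero₂₁, Matrix.det_diagonal, Matrix.det_one,
    mul_one, Matrix.det_fromBlocks_one₁₁]
  congr 2
  ext i j
  simp [Matrix.mul_apply]

theorem blk_update (δ : ι → R) (c : ι → Fin r → R) (A : Fin r → ι → R) (Y : Fin r → Fin r → R)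
    (t : ι) (d : R) (e : Fin r → R) :
    blk (Function.update δ t d) (Function.update c t e) A Y =
      (blk δ c A Y).updateRow (Sum.inl t) (Sum.elim (Pi.single t d) (fun j => - e j)) := by
  ext i j
  rcases i with i | i
  · by_cases h : i = t
    · subst h
      rw [Matrix.updateRow_self]
      rcases j with j | j
      · by_cases hj : j = i
        · subst hj
          simp [blk]
        · simp [blk, hj, Matrix.diagonal_apply_ne' _ hj]
      · simp [blk]
    · rw [Matrix.updateRow_ne (by simp [h])]
      rcases j with j | j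
      · by_cases hj : i = j
        · subst hj
          simp [blk, h]
        · simp [blk, hj]
      · simp [blk, h]
  · rw [Matrix.updateRow_ne (by simp)]
    rcases j with j | j <;> simp [blk]

theorem det_row_add (δ : ι → R) (c : ι → Fin r → R) (A : Fin r → ι → R)
    (Y : Fin r → Fin r → R) (t : ι) (z d d' : R) (e e' : Fin r → R) :
    (blk (Function.update δ t (d + z * d')) (Function.update c t (fun j => e j + z * e' j))
      A Y).det =
      (blk (Function.update δ t d) (Function.update c t e) A Y).det +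
      z * (blk (Function.update δ t d') (Function.update c t e') A Y).det := by
  rw [blk_update, blk_update, blk_update, ← Matrix.det_updateRow_smul, ← Matrix.det_updateRow_add]
  congr 2
  funext j
  rcases j with j | j
  · by_cases hj : j = t
    · subst hj
      simp
    · simp [hj]
  · simp
    ring

theorem det_row_zero (δ : ι → R) (c : ι → Fin r → R) (A : Fin r → ι → R)
    (Y : Fin r → Fin r → R) (t : ι) :
    (blk (Function.update δ t 0) (Function.update c t 0) A Y).det = 0 := by
  refine Matrix.det_eq_zero_of_row_eq_zero (Sum.inl t) fun j => ?_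
  rw [blk_update, Matrix.updateRow_self]
  rcases j with j | j <;> simp

theorem det_congr {n : Type} [Fintype n] [DecidableEq n] (Z : Subring R) (N : R) (hN : N ∈ Z)
    (M M' : Matrix n n R) (hM' : ∀ i j, M' i j ∈ Z)
    (h : ∀ i j, ∃ z ∈ Z, M i j - M' i j = N * z) :
    ∃ z ∈ Z, M.det - M'.det = N * z := by
  choose E hE h using h
  let m' : Matrix n n Z := Matrix.of fun i j => ⟨M' i j, hM' i j⟩
  let m : Matrix n n Z := Matrix.of fun i j => ⟨M' i j, hM' i j⟩ + ⟨N, hN⟩ * ⟨E i j, hE i j⟩
  have h1 : M' = Z.subtype.mapMatrix m' := by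
    ext i j
    simp [m']
  have h2 : M = Z.subtype.mapMatrix m := by
    ext i j
    have h3 := h i j
    simp only [m, RingHom.mapMatrix_apply, Matrix.map_apply, Matrix.of_apply, map_add, map_mul,
      Subring.subtype_apply]
    rw [← h3]
    ring
  have h4 : Ideal.Quotient.mk (Ideal.span {(⟨N, hN⟩ : Z)}) m.det =
      Ideal.Quotient.mk (Ideal.span {(⟨N, hN⟩ : Z)}) m'.det := by
    rw [RingHom.map_det, RingHom.map_det]
    congr 1
    ext i j
    simp only [m, m', RingHom.mapMatrix_apply, Matrix.map_apply, Matrix.of_apply]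
    rw [Ideal.Quotient.eq, add_sub_cancel_left]
    exact Ideal.mul_mem_right _ _ (Ideal.mem_span_singleton_self _)
  rw [Ideal.Quotient.eq, Ideal.mem_span_singleton'] at h4
  obtain ⟨z, hz⟩ := h4
  refine ⟨z, z.2, ?_⟩
  rw [h2, h1, ← RingHom.map_det, ← RingHom.map_det, ← map_sub, ← hz, map_mul]
  simp [mul_comm]

end det

section q

variable {G P ι : Type} [CommGroup G] [Finite G] [AddCommGroup P] [DistribMulAction G P]
  [Fintype ι] [DecidableEq ι] {r n : ℕ}

/-- the value -/
def Ph (cc : Fin n → MonoidAlgebra ℚ G) (X : Fin n → Fin r → P)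
    (a : Fin r → ι → MonoidAlgebra ℤ G)
    (y : Fin r → P →+ MonoidAlgebra ℤ G) (δ : ι → MonoidAlgebra ℚ G)
    (C : ι → P → MonoidAlgebra ℚ G) :
    MonoidAlgebra ℚ G :=
  ∑ k, cc k * (blk δ (fun t j => C t (X k j)) (fun i t => toQ (a i t))
    (fun i j => toQ (y i (X k j)))).det

variable (cc : Fin n → MonoidAlgebra ℚ G) (X : Fin n → Fin r → P)
  (a : Fin r → ι → MonoidAlgebra ℤ G) (y : Fin r → P →+ MonoidAlgebra ℤ G)

theorem upd_comp (C : ι → P → MonoidAlgebra ℚ G) (t : ι) (e : P → MonoidAlgebra ℚ G)
    (x : Fin r → P) :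
    (fun t' j => Function.update C t e t' (x j)) =
      Function.update (fun t' j => C t' (x j)) t (fun j => e (x j)) := by
  funext t' j
  by_cases h : t' = t
  · subst h
    simp
  · simp [h]

theorem Ph_add (δ : ι → MonoidAlgebra ℚ G) (C : ι → P → MonoidAlgebra ℚ G) (t : ι)
    (z d d' : MonoidAlgebra ℚ G) (e e' : P → MonoidAlgebra ℚ G) :
    Ph cc X a y (Function.update δ t (d + z * d'))
      (Function.update C t (fun p => e p + z * e' p)) =
      Ph cc X a y (Function.update δ t d) (Function.update C t e) +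
      z * Ph cc X a y (Function.update δ t d') (Function.update C t e') := by
  unfold Ph
  rw [Finset.mul_sum, ← Finset.sum_add_distrib]
  refine Finset.sum_congr rfl fun k _ => ?_
  rw [upd_comp, upd_comp, upd_comp, det_row_add]
  ring

theorem Ph_zero (δ : ι → MonoidAlgebra ℚ G) (C : ι → P → MonoidAlgebra ℚ G) (t : ι) :
    Ph cc X a y (Function.update δ t 0) (Function.update C t (fun _ => 0)) = 0 := by
  unfold Ph
  refine Finset.sum_eq_zero fun k _ => ?_
  rw [upd_comp]
  have h := det_row_zero δ (fun t' j => C t' (X k j)) (fun i t => toQ (a i t))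
    (fun i j => toQ (y i (X k j))) t
  have h1 : (0 : Fin r → MonoidAlgebra ℚ G) = fun _ => 0 := rfl
  rw [h1] at h
  rw [h, mul_zero]

/-- congruent data -/
theorem Ph_congr (N : ℕ) (hN : ∀ k, (N : MonoidAlgebra ℚ G) * cc k ∈ (toQ (G := G)).range)
    (δ δ' : ι → MonoidAlgebra ℚ G) (C C' : ι → P → MonoidAlgebra ℚ G)
    (hδ' : ∀ t, δ' t ∈ (toQ (G := G)).range) (hC' : ∀ t p, C' t p ∈ (toQ (G := G)).range)
    (hδ : ∀ t, ∃ z ∈ (toQ (G := G)).range, δ t - δ' t = N * z)
    (hC : ∀ t p, ∃ z ∈ (toQ (G := G)).range, C t p - C' t p = N * z)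
    (h : Ph cc X a y δ' C' ∈ (toQ (G := G)).range) :
    Ph cc X a y δ C ∈ (toQ (G := G)).range := by
  have h1 : Ph cc X a y δ C = Ph cc X a y δ' C' + (Ph cc X a y δ C - Ph cc X a y δ' C') := by ring
  rw [h1]
  refine add_mem h ?_
  unfold Ph
  rw [← Finset.sum_sub_distrib]
  refine sum_mem fun k _ => ?_
  rw [← mul_sub]
  obtain ⟨z, hz, hz'⟩ := det_congr (toQ (G := G)).range (N : MonoidAlgebra ℚ G)
    ⟨(N : MonoidAlgebra ℤ G), by rw [map_natCast]⟩
    (blk δ (fun t j => C t (X k j)) (fun i t => toQ (a i t)) (fun i j => toQ (y i (X k j))))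
    (blk δ' (fun t j => C' t (X k j)) (fun i t => toQ (a i t)) (fun i j => toQ (y i (X k j))))
    (by
      intro i j
      rcases i with i | i
      · rcases j with j | j
        · by_cases hij : i = j
          · subst hij
            simpa [blk] using hδ' i
          · simp [blk, hij]
        · simpa [blk] using hC' i (X k j)
      · rcases j with j | j
        · exact ⟨_, rfl⟩
        · exact ⟨_, rfl⟩)
    (by
      intro i j
      rcases i with i | i
      · rcases j with j | j
        · by_cases hij : i = j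
          · subst hij
            simpa [blk] using hδ i
          · refine ⟨0, zero_mem _, ?_⟩
            simp [blk, hij]
        · obtain ⟨z, hz, hz'⟩ := hC i (X k j)
          refine ⟨-z, neg_mem hz, ?_⟩
          simp only [blk, Matrix.fromBlocks_apply₁₂, Matrix.of_apply]
          rw [mul_neg, ← hz']
          ring
      · refine ⟨0, zero_mem _, ?_⟩
        rcases j with j | j <;> simp [blk])
  rw [hz', ← mul_assoc, mul_comm (cc k)]
  exact mul_mem (hN k) hz

end q

end Pool.Agent.J6H32.RT
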