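import Pool.Agent.J6H32.RT.MainT
import Pool.Agent.J6H32.RU.Fin

/-!
# Rubin's conjecture and Frobenius classes: the field of the sets `{v}`
-/

set_option autoImplicit false
set_option linter.unusedSectionVars false

open NumberField IsDedekindDomain Polynomial commutatorElement

noncomputable section

namespace Pool.Agent.J6H32.RT

open Pool.Agent.K3h30.RS Pool.Agent.K3h8.RS Pool.Agent.K3h43.RS Pool.Agent.J6H32.RU

section grp

variable {Γ ι : Type} [Group Γ] [Fintype ι] [DecidableEq ι]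

/-- replacing the entries one at a time -/
theorem replace (R : Set (ι → Γ)) (Γ₀ : Subgroup Γ)
    (h : ∀ (g : ι → Γ) (t₀ : ι), ∃ Γ' : Subgroup Γ,
      (∀ a, a ∈ Γ' ↔ Function.update g t₀ a ∈ R) ∧ Γ₀ ≤ Γ')
    (g g' : ι → Γ) (hg : ∀ t, (g t)⁻¹ * g' t ∈ Γ₀) : g ∈ R ↔ g' ∈ R := by
  have key : ∀ s : Finset ι, (fun t => if t ∈ s then g' t else g t) ∈ R ↔ g ∈ R := by
    intro s
    induction s using Finset.induction_on with
    | empty => simp
    | insert t₀ s ht ih =>
      rw [← ih]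
      obtain ⟨Γ', h1, h2⟩ := h (fun t => if t ∈ s then g' t else g t) t₀
      have e1 : (fun t => if t ∈ insert t₀ s then g' t else g t) =
          Function.update (fun t => if t ∈ s then g' t else g t) t₀ (g' t₀) := by
        funext t
        by_cases h : t = t₀
        · subst h; simp
        · simp [h]
      have e2 : (fun t => if t ∈ s then g' t else g t) =
          Function.update (fun t => if t ∈ s then g' t else g t) t₀ (g t₀) := by
        funext t
        by_cases h : t = t₀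
        · subst h; simp [ht]
        · simp [h]
      have e4 : (fun t => if t ∈ s then g' t else g t) ∈ R ↔ g t₀ ∈ Γ' := by
        rw [h1, ← e2]
      rw [e1, ← h1, e4]
      have e3 : g' t₀ = g t₀ * ((g t₀)⁻¹ * g' t₀) := by group
      rw [e3]
      exact Subgroup.mul_mem_cancel_right Γ' (h2 (hg t₀))
  have h1 := key Finset.univ
  simp only [Finset.mem_univ, if_true] at h1
  exact h1.symm

end grp

section cheb

variable {F L : Type} [Field F] [NumberField F] [Field L] [NumberField L] [Algebra F L]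
  {ι : Type} [Fintype ι] [DecidableEq ι]

/-- different prime ideals with given Frobenius automorphisms -/
theorem realize (g : ι → (L ≃ₐ[F] L)) (bad : Finset (HeightOneSpectrum (𝓞 F))) :
    ∃ v : ι → HeightOneSpectrum (𝓞 F), Function.Injective v ∧ (∀ t, v t ∉ bad) ∧
      ∀ t, ∃ Q : HeightOneSpectrum (𝓞 L), FrobAt (v t) Q (g t) := by
  classical
  have key : ∀ s : Finset ι, ∃ v : ι → HeightOneSpectrum (𝓞 F), Set.InjOn v s ∧
      ∀ t ∈ s, v t ∉ bad ∧ ∃ Q : HeightOneSpectrum (𝓞 L), FrobAt (v t) Q (g t) := by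
    intro s
    induction s using Finset.induction_on with
    | empty =>
      obtain ⟨v, -, -⟩ := exists_frobAt (1 : L ≃ₐ[F] L) bad
      exact ⟨fun _ => v, by simp, fun t ht => absurd ht (Finset.notMem_empty t)⟩
    | insert t₀ s ht ih =>
      obtain ⟨v, h1, h2⟩ := ih
      obtain ⟨v₀, hv₀, hQ₀⟩ := exists_frobAt (g t₀) (bad ∪ s.image v)
      rw [Finset.mem_union, not_or] at hv₀
      refine ⟨Function.update v t₀ v₀, ?_, ?_⟩
      · intro a ha b hb hab
        rw [Finset.coe_insert] at ha hb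
        rcases ha with rfl | ha
        · rcases hb with rfl | hb
          · rfl
          · exfalso
            have hbt : b ≠ a := fun h => ht (h ▸ (Finset.mem_coe.1 hb))
            rw [Function.update_self, Function.update_of_ne hbt] at hab
            exact hv₀.2 (hab ▸ Finset.mem_image_of_mem v (Finset.mem_coe.1 hb))
        · have hat : a ≠ t₀ := fun h => ht (h ▸ (Finset.mem_coe.1 ha))
          rcases hb with rfl | hb
          · exfalso
            rw [Function.update_self, Function.update_of_ne hat] at hab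
            exact hv₀.2 (hab ▸ Finset.mem_image_of_mem v (Finset.mem_coe.1 ha))
          · have hbt : b ≠ t₀ := fun h => ht (h ▸ (Finset.mem_coe.1 hb))
            rw [Function.update_of_ne hbt, Function.update_of_ne hat] at hab
            exact h1 ha hb hab
      · intro t htt
        by_cases h : t = t₀
        · subst h
          rw [Function.update_self]
          exact ⟨hv₀.1, hQ₀⟩
        · rw [Function.update_of_ne h]
          exact h2 t (Finset.mem_of_mem_insert_of_ne htt h)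
  obtain ⟨v, h1, h2⟩ := key Finset.univ
  refine ⟨v, fun a b hab => h1 (Finset.mem_coe.2 (Finset.mem_univ a))
    (Finset.mem_coe.2 (Finset.mem_univ b)) hab, fun t => (h2 t (Finset.mem_univ t)).1,
    fun t => (h2 t (Finset.mem_univ t)).2⟩

variable (K : IntermediateField F L)

/-- two automorphisms which agree on the integers of the subfield -/
theorem agree_of (g : L ≃ₐ[F] L) (τ : K ≃ₐ[F] K)
    (h : ∀ a : 𝓞 K, g ((a : K) : L) = ((τ (a : K) : K) : L)) (x : K) :
    g (x : L) = ((τ x : K) : L) := by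
  obtain ⟨c, d, hd, hcd⟩ := IsFractionRing.div_surjective (A := 𝓞 K) x
  have h1 : x = (c : K) / (d : K) := hcd.symm
  rw [h1, map_div₀]
  push_cast
  rw [map_div₀, h, h]

/-- the Frobenius automorphisms of a subfield -/
theorem exists_lift_frob [FiniteDimensional F L] : ∃ bad : Finset (HeightOneSpectrum (𝓞 F)),
    ∀ v : HeightOneSpectrum (𝓞 F), v ∉ bad → ∀ (q : HeightOneSpectrum (𝓞 K)) (τ : K ≃ₐ[F] K),
      FrobAt v q τ → [IsGalois F L] → ∃ (g : L ≃ₐ[F] L) (Q : HeightOneSpectrum (𝓞 L)),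
        FrobAt v Q g ∧ ∀ x : K, g (x : L) = ((τ x : K) : L) := by
  classical
  have hmov : ∀ s : (L ≃ₐ[F] L) × (K ≃ₐ[F] K),
      (¬ ∀ x : K, s.1 (x : L) = ((s.2 x : K) : L)) →
      ∃ a : 𝓞 K, s.1 ((a : K) : L) ≠ ((s.2 (a : K) : K) : L) := by
    intro s hs
    by_contra hcon
    push Not at hcon
    exact hs (agree_of K s.1 s.2 hcon)
  choose! a ha using hmov
  have hbad2 : ∀ s : (L ≃ₐ[F] L) × (K ≃ₐ[F] K), (¬ ∀ x : K, s.1 (x : L) = ((s.2 x : K) : L)) →
      {v : HeightOneSpectrum (𝓞 F) | ∃ w : HeightOneSpectrum (𝓞 L),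
        w.valuation L (s.1 ((a s : K) : L) - ((s.2 (a s : K) : K) : L)) < 1 ∧
        w.asIdeal.comap (algebraMap (𝓞 F) (𝓞 L)) = v.asIdeal}.Finite := fun s hs =>
    finite_under _ (sub_ne_zero.mpr (ha s hs))
  have hbad : {v : HeightOneSpectrum (𝓞 F) | ∃ s : (L ≃ₐ[F] L) × (K ≃ₐ[F] K),
      (¬ ∀ x : K, s.1 (x : L) = ((s.2 x : K) : L)) ∧ ∃ w : HeightOneSpectrum (𝓞 L),
        w.valuation L (s.1 ((a s : K) : L) - ((s.2 (a s : K) : K) : L)) < 1 ∧
        w.asIdeal.comap (algebraMap (𝓞 F) (𝓞 L)) = v.asIdeal}.Finite := by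
    refine (Set.finite_iUnion (ι := {s : (L ≃ₐ[F] L) × (K ≃ₐ[F] K) //
      ¬ ∀ x : K, s.1 (x : L) = ((s.2 x : K) : L)}) fun s => hbad2 s.1 s.2).subset ?_
    rintro v ⟨s, hs, hv⟩
    exact Set.mem_iUnion.mpr ⟨⟨s, hs⟩, hv⟩
  refine ⟨hbad.toFinset, ?_⟩
  intro v hv q τ hτ hgal
  rw [Set.Finite.mem_toFinset] at hv
  obtain ⟨Q, hQ⟩ := exists_over (L := L) q
  have hQv : Q.asIdeal.comap (algebraMap (𝓞 F) (𝓞 L)) = v.asIdeal := by
    rw [← hτ.1, ← hQ, Ideal.comap_comap]
    congr 1
  obtain ⟨g, hg⟩ := exists_frob F L v Q hQv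
  refine ⟨g, Q, ⟨hQv, hg⟩, ?_⟩
  by_contra hcon
  apply hv
  refine ⟨(g, τ), hcon, Q, ?_, hQv⟩
  have h1 := hg (algebraMap (𝓞 K) (𝓞 L) (a (g, τ)))
  have h2 := hτ.2 (a (g, τ))
  have h3 : Q.valuation L (((τ ((a (g, τ) : 𝓞 K) : K) : K) : L) -
      (((a (g, τ) : 𝓞 K) : K) : L) ^ Ideal.absNorm v.asIdeal) < 1 := by
    have h4 := (val_lt_iff q Q hQ (τ ((a (g, τ) : 𝓞 K) : K) -
      ((a (g, τ) : 𝓞 K) : K) ^ Ideal.absNorm v.asIdeal)).2 h2
    rw [map_sub, map_pow] at h4
    exact h4
  have h5 : ((algebraMap (𝓞 K) (𝓞 L) (a (g, τ)) : 𝓞 L) : L) = (((a (g, τ) : 𝓞 K) : K) : L) := rfl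
  rw [h5] at h1
  rw [Valuation.map_sub_swap] at h3
  have h6 := Valuation.map_add_lt _ h1 h3
  convert h6 using 2
  ring

end cheb

end Pool.Agent.J6H32.RT
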