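import Pool.Agent.J6H32.RU.Dns
import Pool.Agent.J6H32.RT.KT

/-!
# The density of a Frobenius class
-/

set_option autoImplicit false
set_option linter.unusedSectionVars false

open NumberField IsDedekindDomain Filter Topology
open scoped Pointwise

noncomputable section

namespace Pool.Agent.J6H32.RT

open Pool.Agent.K3h30.RS Pool.Agent.K3h8.RS Pool.Agent.K3h43.RS Pool.Agent.J6H32.RU
open Pool.Agent.W401.Cheb (GK chebotarev torsor dens)

variable {F L : Type} [Field F] [NumberField F] [Field L] [NumberField L] [Algebra F L]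

/-- the natural density of the prime ideals whose Frobenius automorphisms are in a set `C₀` -/
theorem density_set [IsGalois F L] (C₀ : Set (L ≃ₐ[F] L))
    (hC₀ : ∀ g ∈ C₀, ∀ h : L ≃ₐ[F] L, h * g * h⁻¹ ∈ C₀)
    {bad : Finset (HeightOneSpectrum (𝓞 F))} {R : HeightOneSpectrum (𝓞 F) → Prop}
    (hR : ∀ v : HeightOneSpectrum (𝓞 F), v ∉ bad → ∀ (Q : HeightOneSpectrum (𝓞 L))
      (g : L ≃ₐ[F] L), FrobAt v Q g → (R v ↔ g ∈ C₀)) :
    Tendsto (fun X : ℕ => (Nat.card {v : HeightOneSpectrum (𝓞 F) //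
      R v ∧ Ideal.absNorm v.asIdeal ≤ X} : ℝ) / (Nat.primeCounting X : ℝ)) atTop
      (𝓝 ((C₀.ncard : ℝ) / (Nat.card (L ≃ₐ[F] L) : ℝ))) := by
  classical
  let φ : L →ₐ[F] AlgebraicClosure F := IsAlgClosed.lift
  let _ : Algebra L (AlgebraicClosure F) := φ.toRingHom.toAlgebra
  have : IsScalarTower F L (AlgebraicClosure F) :=
    IsScalarTower.of_algebraMap_eq (fun x => (φ.commutes x).symm)
  have hN : Normal F (AlgebraicClosure F) := IsAlgClosure.normal F (AlgebraicClosure F)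
  let res : GK F →* (L ≃ₐ[F] L) := AlgEquiv.restrictNormalHom L
  have hres : ∀ (σ : GK F) (x : L), algebraMap L (AlgebraicClosure F) (res σ x) =
      σ (algebraMap L (AlgebraicClosure F) x) := fun σ x => AlgEquiv.restrictNormal_commutes σ L x
  have hsurj : Function.Surjective res := AlgEquiv.restrictNormalHom_surjective _
  have hopen : IsOpen ((res.ker : Subgroup (GK F)) : Set (GK F)) := by
    have h1 : (φ.fieldRange).fixingSubgroup ≤ res.ker := by
      intro σ hσ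
      rw [IntermediateField.mem_fixingSubgroup_iff] at hσ
      rw [MonoidHom.mem_ker]
      ext x
      apply (algebraMap L (AlgebraicClosure F)).injective
      rw [hres]
      exact hσ _ ⟨x, rfl⟩
    have : FiniteDimensional F φ.fieldRange :=
      LinearMap.finiteDimensional_range φ.toLinearMap
    exact Subgroup.isOpen_mono h1 (IntermediateField.fixingSubgroup_isOpen _)
  let C : Set (GK F) := {σ | res σ ∈ C₀}
  have hC : ∀ σ ∈ C, ∀ τ : GK F, τ * σ * τ⁻¹ ∈ C := by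
    intro σ hσ τ
    change res (τ * σ * τ⁻¹) ∈ C₀
    rw [map_mul, map_mul, map_inv]
    exact hC₀ _ hσ _
  have hCU : ∀ σ ∈ C, ∀ u ∈ res.ker, σ * u ∈ C := by
    intro σ hσ u hu
    change res (σ * u) ∈ C₀
    rw [map_mul, MonoidHom.mem_ker.1 hu, mul_one]
    exact hσ
  have key := chebK F res.ker hopen C hC hCU
  rw [Pool.Agent.W352.ChAbs.ratio res.ker res le_rfl C hCU] at key
  have h1 : res '' C = C₀ := by
    ext g
    constructor
    · rintro ⟨σ, hσ, rfl⟩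
      exact hσ
    · intro hg
      obtain ⟨σ, rfl⟩ := hsurj g
      exact ⟨σ, hg, rfl⟩
  have h2 : Nat.card res.range = Nat.card (L ≃ₐ[F] L) := by
    rw [MonoidHom.range_eq_top.2 hsurj]
    exact Nat.card_congr Subgroup.topEquiv.toEquiv
  rw [h1, h2] at key
  refine dens_congr (bad := bad) ?_ key
  intro v hv
  have hF : ∀ σ : GK F, Pool.Agent.W401.Cheb.IsFrob v σ → (R v ↔ res σ ∈ C₀) := by
    rintro σ ⟨I, hI, hIv, hσ⟩
    have hpr := hI.isPrime
    have hcomp : (algebraMap (𝓞 L) (𝓞 (AlgebraicClosure F))).comp (algebraMap (𝓞 F) (𝓞 L)) =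
        algebraMap (𝓞 F) (𝓞 (AlgebraicClosure F)) := by
      ext x
      exact (IsScalarTower.algebraMap_apply F L (AlgebraicClosure F) (x : F)).symm
    have h6 : (I.comap (algebraMap (𝓞 L) (𝓞 (AlgebraicClosure F)))).comap
        (algebraMap (𝓞 F) (𝓞 L)) = v.asIdeal := by
      rw [Ideal.comap_comap, hcomp]
      exact hIv
    have h7 : I.comap (algebraMap (𝓞 L) (𝓞 (AlgebraicClosure F))) ≠ ⊥ := by
      intro h0
      apply v.ne_bot
      rw [← h6, h0]
      exact (RingHom.injective_iff_ker_eq_bot _).mp (FaithfulSMul.algebraMap_injective _ _)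
    refine hR v hv ⟨_, Ideal.comap_isPrime _ _, h7⟩ (res σ) ?_
    rw [frobAt_iff]
    refine ⟨h6, fun x => ?_⟩
    have h8 := hσ (algebraMap (𝓞 L) (𝓞 (AlgebraicClosure F)) x)
    change algebraMap (𝓞 L) (𝓞 (AlgebraicClosure F)) (aut (res σ) x - x ^ _) ∈ I
    have h9 : algebraMap (𝓞 L) (𝓞 (AlgebraicClosure F)) (aut (res σ) x) =
        σ • algebraMap (𝓞 L) (𝓞 (AlgebraicClosure F)) x := by
      apply RingOfIntegers.ext
      exact hres σ (x : L)
    rw [map_sub, map_pow, h9]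
    exact h8
  constructor
  · rintro ⟨σ, hσ, hσF⟩
    exact (hF σ hσF).2 hσ
  · intro hv
    obtain ⟨σ, hσ⟩ := Pool.Agent.W401.Frob.exists_frob v
    exact ⟨σ, (hF σ hσ).1 hv, hσ⟩

/-- the Frobenius automorphisms of almost all prime ideals form one class -/
theorem frob_unique [IsGalois F L] : ∃ bad : Finset (HeightOneSpectrum (𝓞 F)),
    ∀ v : HeightOneSpectrum (𝓞 F), v ∉ bad → ∀ (q q' : HeightOneSpectrum (𝓞 L))
      (g g' : L ≃ₐ[F] L), FrobAt v q g → FrobAt v q' g' → IsConj g g' := by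
  classical
  have hmov : ∀ s : (L ≃ₐ[F] L) × (L ≃ₐ[F] L), s.1 ≠ s.2 →
      ∃ a : 𝓞 L, s.1 (a : L) ≠ s.2 (a : L) := by
    intro s hs
    by_contra hcon
    push Not at hcon
    apply hs
    ext x
    obtain ⟨c, d, hd, hcd⟩ := IsFractionRing.div_surjective (A := 𝓞 L) x
    have h1 : x = (c : L) / (d : L) := hcd.symm
    rw [h1, map_div₀, map_div₀, hcon, hcon]
  choose! a ha using hmov
  have hbad2 : ∀ s : (L ≃ₐ[F] L) × (L ≃ₐ[F] L), s.1 ≠ s.2 →
      {v : HeightOneSpectrum (𝓞 F) | ∃ w : HeightOneSpectrum (𝓞 L),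
        w.valuation L (s.1 (a s : L) - s.2 (a s : L)) < 1 ∧
        w.asIdeal.comap (algebraMap (𝓞 F) (𝓞 L)) = v.asIdeal}.Finite := fun s hs =>
    finite_under _ (sub_ne_zero.mpr (ha s hs))
  have hbad : {v : HeightOneSpectrum (𝓞 F) | ∃ s : (L ≃ₐ[F] L) × (L ≃ₐ[F] L), s.1 ≠ s.2 ∧
      ∃ w : HeightOneSpectrum (𝓞 L), w.valuation L (s.1 (a s : L) - s.2 (a s : L)) < 1 ∧
        w.asIdeal.comap (algebraMap (𝓞 F) (𝓞 L)) = v.asIdeal}.Finite := by
    refine (Set.finite_iUnion (ι := {s : (L ≃ₐ[F] L) × (L ≃ₐ[F] L) // s.1 ≠ s.2})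
      fun s => hbad2 s.1 s.2).subset ?_
    rintro v ⟨s, hs, hv⟩
    exact Set.mem_iUnion.mpr ⟨⟨s, hs⟩, hv⟩
  refine ⟨hbad.toFinset, ?_⟩
  intro v hv q q' g g' hg hg'
  rw [Set.Finite.mem_toFinset] at hv
  have hp := q.isPrime
  have hp' := q'.isPrime
  obtain ⟨h, hh⟩ := Algebra.IsInvariant.exists_smul_of_under_eq (𝓞 F) (𝓞 L) (L ≃ₐ[F] L)
    q.asIdeal q'.asIdeal (hg.1.trans hg'.1.symm)
  have hmem : ∀ x : 𝓞 L, x ∈ q'.asIdeal ↔ aut h⁻¹ x ∈ q.asIdeal := by
    intro x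
    rw [hh, Ideal.mem_pointwise_smul_iff_inv_smul_mem]
    exact Iff.rfl
  have hconj : FrobAt v q' (h * g * h⁻¹) := by
    rw [frobAt_iff] at hg ⊢
    refine ⟨hg'.1, fun x => ?_⟩
    rw [hmem]
    have h3 : aut h⁻¹ (aut (h * g * h⁻¹) x - x ^ Ideal.absNorm v.asIdeal) =
        aut g (aut h⁻¹ x) - (aut h⁻¹ x) ^ Ideal.absNorm v.asIdeal := by
      rw [map_sub, map_pow]
      congr 1
      apply RingOfIntegers.ext
      rw [aut_val, aut_val, aut_val, aut_val]
      change (h⁻¹ * (h * g * h⁻¹)) (x : L) = (g * h⁻¹) (x : L)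
      congr 1
      group
    rw [h3]
    exact hg.2 _
  have heq : h * g * h⁻¹ = g' := by
    by_contra hne
    apply hv
    refine ⟨(h * g * h⁻¹, g'), hne, q', ?_, hg'.1⟩
    have h1 := hconj.2 (a (h * g * h⁻¹, g'))
    have h2 := hg'.2 (a (h * g * h⁻¹, g'))
    rw [Valuation.map_sub_swap] at h2
    have h3 := Valuation.map_add_lt _ h1 h2
    convert h3 using 2
    ring
  rw [isConj_iff]
  exact ⟨h, heq⟩

/-- the classes of the prime ideals and their densities -/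
theorem exists_cl [IsGalois F L] [Fintype (ConjClasses (L ≃ₐ[F] L))] :
    ∃ (cl : HeightOneSpectrum (𝓞 F) → ConjClasses (L ≃ₐ[F] L))
      (bad : Finset (HeightOneSpectrum (𝓞 F))),
      (∀ v : HeightOneSpectrum (𝓞 F), v ∉ bad → ∀ (q : HeightOneSpectrum (𝓞 L))
        (g : L ≃ₐ[F] L), FrobAt v q g → ConjClasses.mk g = cl v) ∧
      (∀ v v' : HeightOneSpectrum (𝓞 F), cl v = cl v' → ∃ (τ : L ≃ₐ[F] L)
        (q q' : HeightOneSpectrum (𝓞 L)), FrobAt v q τ ∧ FrobAt v' q' τ) ∧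
      (∀ c : ConjClasses (L ≃ₐ[F] L),
        Tendsto (fun X : ℕ => (Nat.card {v : HeightOneSpectrum (𝓞 F) //
          cl v = c ∧ Ideal.absNorm v.asIdeal ≤ X} : ℝ) / (Nat.primeCounting X : ℝ)) atTop
          (𝓝 ((c.carrier.ncard : ℝ) / (Nat.card (L ≃ₐ[F] L) : ℝ)))) ∧
      ∑ c : ConjClasses (L ≃ₐ[F] L), (c.carrier.ncard : ℝ) / (Nat.card (L ≃ₐ[F] L) : ℝ) = 1 := by
  classical
  have hex : ∀ v : HeightOneSpectrum (𝓞 F), ∃ (q : HeightOneSpectrum (𝓞 L))
      (g : L ≃ₐ[F] L), FrobAt v q g := by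
    intro v
    obtain ⟨Q, hQ⟩ := exists_over (L := L) v
    obtain ⟨g, hg⟩ := exists_frob F L v Q hQ
    exact ⟨Q, g, hQ, hg⟩
  choose Q g hg using hex
  obtain ⟨bad, hbad⟩ := frob_unique (F := F) (L := L)
  have h1 : ∀ v : HeightOneSpectrum (𝓞 F), v ∉ bad → ∀ (q : HeightOneSpectrum (𝓞 L))
      (g' : L ≃ₐ[F] L), FrobAt v q g' → ConjClasses.mk g' = ConjClasses.mk (g v) := by
    intro v hv q g' hq
    rw [ConjClasses.mk_eq_mk_iff_isConj]
    exact hbad v hv q (Q v) g' (g v) hq (hg v)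
  refine ⟨fun v => ConjClasses.mk (g v), bad, h1, ?_, ?_, ?_⟩
  · intro v v' h
    rw [ConjClasses.mk_eq_mk_iff_isConj, isConj_comm, isConj_iff] at h
    obtain ⟨c, hc⟩ := h
    obtain ⟨q', hq'⟩ := frobAt_conj v' (Q v') (g v') c (hg v')
    rw [hc] at hq'
    exact ⟨g v, Q v, q', hg v, hq'⟩
  · intro c
    refine density_set c.carrier ?_ (bad := bad) ?_
    · intro x hx h
      rw [ConjClasses.mem_carrier_iff_mk_eq] at hx ⊢
      rw [← hx, ConjClasses.mk_eq_mk_iff_isConj, isConj_comm, isConj_iff]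
      exact ⟨h, rfl⟩
    · intro v hv q g' hq
      rw [ConjClasses.mem_carrier_iff_mk_eq, h1 v hv q g' hq]
  · rw [← Finset.sum_div, ← Nat.cast_sum]
    have h2 := Group.sum_card_conj_classes_eq_card (L ≃ₐ[F] L)
    rw [finsum_eq_sum_of_fintype] at h2
    rw [h2, div_self]
    exact_mod_cast Nat.card_pos.ne'

end Pool.Agent.J6H32.RT
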