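import Mathlib

/-!
# The proportion of the sets with `m` elements with a property given by classes
-/

set_option autoImplicit false
set_option linter.unusedSectionVars false

open Finset Filter Topology

noncomputable section

namespace Pool.Agent.J6H32.RT

open Classical in
/-- the injective tuples with a property of the image -/
def Inj {V : Type} (m : ℕ) (P : Finset V) (Rub : Finset V → Prop) : Finset (Fin m → V) :=
  (Fintype.piFinset (fun _ : Fin m => P)).filter
    (fun w => Function.Injective w ∧ Rub (Finset.univ.image w))

open Classical in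
theorem mem_Inj {V : Type} (m : ℕ) (P : Finset V) (Rub : Finset V → Prop) (w : Fin m → V) :
    w ∈ Inj m P Rub ↔ (∀ i, w i ∈ P) ∧ Function.Injective w ∧ Rub (Finset.univ.image w) := by
  unfold Inj
  rw [Finset.mem_filter, Fintype.mem_piFinset]

open Classical in
theorem card_Inj {V : Type} (m : ℕ) (P : Finset V) (Rub : Finset V → Prop) :
    (Inj m P Rub).card = ((P.powersetCard m).filter Rub).card * m.factorial := by
  rw [Finset.card_eq_sum_card_fiberwise (f := fun w : Fin m → V => Finset.univ.image w)
    (t := (P.powersetCard m).filter Rub)]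
  · rw [Finset.sum_const_nat (m := m.factorial)]
    intro T hT
    rw [Finset.mem_filter, Finset.mem_powersetCard] at hT
    obtain ⟨⟨hTP, hTc⟩, hRub⟩ := hT
    have hmem : ∀ w, w ∈ (Inj m P Rub).filter (fun w => Finset.univ.image w = T) ↔
        Function.Injective w ∧ Finset.univ.image w = T := by
      intro w
      rw [Finset.mem_filter, mem_Inj]
      constructor
      · rintro ⟨⟨-, h1, -⟩, h2⟩
        exact ⟨h1, h2⟩
      · rintro ⟨h1, h2⟩
        refine ⟨⟨fun i => hTP ?_, h1, h2 ▸ hRub⟩, h2⟩
        rw [← h2]
        exact Finset.mem_image_of_mem _ (Finset.mem_univ i)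
    have hcard : Fintype.card (Fin m ≃ T) = m.factorial := by
      have e : Fin m ≃ T := Fintype.equivOfCardEq (by
        rw [Fintype.card_fin, Fintype.card_coe, hTc])
      rw [Fintype.card_equiv e, Fintype.card_fin]
    rw [← hcard, ← Fintype.card_coe]
    refine Fintype.card_congr
      { toFun := fun w => Equiv.ofBijective (fun i => (⟨w.1 i,
          (Finset.ext_iff.1 ((hmem w.1).1 w.2).2 _).1
            (Finset.mem_image_of_mem _ (Finset.mem_univ i))⟩ : T)) (by
            have h := (hmem w.1).1 w.2
            constructor
            · intro a b hab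
              exact h.1 (congrArg Subtype.val hab)
            · intro t
              have h2 := (Finset.ext_iff.1 h.2 (t : V)).2 t.2
              rw [Finset.mem_image] at h2
              obtain ⟨i, -, hi⟩ := h2
              exact ⟨i, Subtype.ext hi⟩)
        invFun := fun e => ⟨fun i => (e i : V), by
          rw [hmem]
          constructor
          · intro a b hab
            exact e.injective (Subtype.ext hab)
          · ext x
            simp only [Finset.mem_image, Finset.mem_univ, true_and]
            constructor
            · rintro ⟨i, rfl⟩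
              exact (e i).2
            · intro hx
              exact ⟨e.symm ⟨x, hx⟩, by simp⟩⟩
        left_inv := fun w => by
          apply Subtype.ext
          rfl
        right_inv := fun e => by
          ext i
          rfl }
  · intro w hw
    rw [Finset.mem_coe, mem_Inj] at hw
    obtain ⟨h1, h2, h3⟩ := hw
    rw [Finset.mem_coe, Finset.mem_filter, Finset.mem_powersetCard]
    refine ⟨⟨?_, ?_⟩, h3⟩
    · intro x hx
      obtain ⟨i, -, rfl⟩ := Finset.mem_image.1 hx
      exact h1 i
    · rw [Finset.card_image_of_injective _ h2, Finset.card_univ, Fintype.card_fin]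

open Classical in
theorem card_Inj_true {V : Type} (m : ℕ) (P : Finset V) :
    (Inj m P (fun _ => True)).card = P.card.descFactorial m := by
  have h : ∀ s : Finset (Finset V), s = P.powersetCard m →
      s.card * m.factorial = P.card.descFactorial m := by
    rintro _ rfl
    rw [Finset.card_powersetCard, Nat.descFactorial_eq_factorial_mul_choose, mul_comm]
  rw [card_Inj]
  apply h
  ext x
  simp

open Classical in
/-- the tuples whose classes are in `R` -/
def Tup {V C : Type} (m : ℕ) (P : Finset V) (cl : V → C) (R : Set (Fin m → C)) :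
    Finset (Fin m → V) :=
  (Fintype.piFinset (fun _ : Fin m => P)).filter (fun w => (fun i => cl (w i)) ∈ R)

open Classical in
theorem card_Tup {V C : Type} [Fintype C] (m : ℕ) (P : Finset V) (cl : V → C)
    (R : Set (Fin m → C)) :
    (Tup m P cl R).card = ∑ c ∈ Finset.univ.filter (fun c => c ∈ R),
      ∏ i, (P.filter (fun v => cl v = c i)).card := by
  rw [Finset.card_eq_sum_card_fiberwise (f := fun (w : Fin m → V) i => cl (w i))
    (t := Finset.univ.filter (fun c => c ∈ R))]
  · refine Finset.sum_congr rfl fun c hc => ?_
    rw [Finset.mem_filter] at hc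
    rw [← Fintype.card_piFinset]
    congr 1
    ext w
    unfold Tup
    rw [Finset.mem_filter, Finset.mem_filter, Fintype.mem_piFinset, Fintype.mem_piFinset]
    constructor
    · rintro ⟨⟨h1, -⟩, h2⟩ i
      rw [Finset.mem_filter]
      exact ⟨h1 i, congrFun h2 i⟩
    · intro h
      have h2 : (fun i => cl (w i)) = c := funext fun i => (Finset.mem_filter.1 (h i)).2
      exact ⟨⟨fun i => (Finset.mem_filter.1 (h i)).1, h2 ▸ hc.2⟩, h2⟩
  · intro w hw
    unfold Tup at hw
    rw [Finset.mem_coe, Finset.mem_filter] at hw
    rw [Finset.mem_coe, Finset.mem_filter]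
    exact ⟨Finset.mem_univ _, hw.2⟩

section

variable {V C : Type} [Fintype C] (m : ℕ) (P bad : Finset V) (cl : V → C)
  (Rub : Finset V → Prop) (R : Set (Fin m → C))

open Classical in
theorem compare (hR : ∀ w : Fin m → V, Function.Injective w → (∀ i, w i ∉ bad) →
      (Rub (Finset.univ.image w) ↔ (fun i => cl (w i)) ∈ R)) :
    (Inj m P Rub).card + (P \ bad).card.descFactorial m ≤
        (Tup m (P \ bad) cl R).card + P.card ^ m ∧
      (Tup m (P \ bad) cl R).card + (P \ bad).card.descFactorial m ≤
        (Inj m P Rub).card + P.card ^ m := by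
  rw [← card_Inj_true]
  have hc1 : (Fintype.piFinset (fun _ : Fin m => P)).card = P.card ^ m := by
    rw [Fintype.card_piFinset, Finset.prod_const, Finset.card_univ, Fintype.card_fin]
  have hsub1 : Inj m (P \ bad) (fun _ => True) ⊆ Fintype.piFinset (fun _ : Fin m => P) := by
    intro w hw
    rw [mem_Inj] at hw
    rw [Fintype.mem_piFinset]
    exact fun i => Finset.sdiff_subset (hw.1 i)
  have hd := Finset.card_sdiff_add_card_eq_card hsub1
  rw [hc1] at hd
  have hkey : ∀ w ∈ Inj m (P \ bad) (fun _ => True), w ∈ Inj m P Rub ↔
      w ∈ Tup m (P \ bad) cl R := by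
    intro w hw
    rw [mem_Inj] at hw
    have h1 := hR w hw.2.1 (fun i => (Finset.mem_sdiff.1 (hw.1 i)).2)
    rw [mem_Inj, h1]
    unfold Tup
    rw [Finset.mem_filter, Fintype.mem_piFinset]
    exact ⟨fun h => ⟨hw.1, h.2.2⟩, fun h => ⟨fun i => Finset.sdiff_subset (hw.1 i), hw.2.1, h.2⟩⟩
  have hI : Inj m P Rub ⊆ Fintype.piFinset (fun _ : Fin m => P) := by
    intro w hw
    rw [mem_Inj] at hw
    rw [Fintype.mem_piFinset]
    exact hw.1
  have hT : Tup m (P \ bad) cl R ⊆ Fintype.piFinset (fun _ : Fin m => P) := by
    intro w hw
    unfold Tup at hw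
    rw [Finset.mem_filter, Fintype.mem_piFinset] at hw
    rw [Fintype.mem_piFinset]
    exact fun i => Finset.sdiff_subset (hw.1 i)
  constructor
  · have h1 : Inj m P Rub ⊆ Tup m (P \ bad) cl R ∪
        (Fintype.piFinset (fun _ : Fin m => P) \ Inj m (P \ bad) (fun _ => True)) := by
      intro w hw
      by_cases h : w ∈ Inj m (P \ bad) (fun _ => True)
      · exact Finset.mem_union_left _ ((hkey w h).1 hw)
      · exact Finset.mem_union_right _ (Finset.mem_sdiff.2 ⟨hI hw, h⟩)
    have h2 := (Finset.card_le_card h1).trans (Finset.card_union_le _ _)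
    omega
  · have h1 : Tup m (P \ bad) cl R ⊆ Inj m P Rub ∪
        (Fintype.piFinset (fun _ : Fin m => P) \ Inj m (P \ bad) (fun _ => True)) := by
      intro w hw
      by_cases h : w ∈ Inj m (P \ bad) (fun _ => True)
      · exact Finset.mem_union_left _ ((hkey w h).2 hw)
      · exact Finset.mem_union_right _ (Finset.mem_sdiff.2 ⟨hT hw, h⟩)
    have h2 := (Finset.card_le_card h1).trans (Finset.card_union_le _ _)
    omega

end

end Pool.Agent.J6H32.RT
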