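import Pool.Agent.J6H32.RT.GrpT
import Pool.Agent.J6H32.RU.Equiv

/-!
# Rubin's conjecture and Frobenius classes: integrality and the good tuples
-/

set_option autoImplicit false
set_option linter.unusedSectionVars false

open NumberField IsDedekindDomain Filter Topology

noncomputable section

namespace Pool.Agent.J6H32.RT

open Pool.Agent.K3h30.RS Pool.Agent.J6H32.RU

section repr

variable {G P ι : Type} [CommGroup G] [Finite G] [AddCommGroup P] [DistribMulAction G P]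
  [Fintype ι] [DecidableEq ι]

/-- the integral homomorphisms -/
theorem reprT (χ : ι → P →+ QZ) (m : ι → ℕ)
    (hm : ∀ t, 0 < m t) (hχ : ∀ t p, m t • χ t p = 0) (Λ : ι → P →+ MonoidAlgebra ℚ G)
    (hΛ1 : ∀ t (γ : G) (p : P), Λ t (γ • p) = MonoidAlgebra.single γ 1 * Λ t p)
    (hΛ2 : ∀ t (γ : G) (p : P), (((Λ t p).coeff γ : ℚ) : QZ) = χ t (γ⁻¹ • p))
    (f : P →+ MonoidAlgebra ℚ G)
    (hf1 : ∀ (γ : G) (p : P), f (γ • p) = MonoidAlgebra.single γ 1 * f p)
    (hf2 : ∀ p, (∀ t (γ : G), χ t (γ • p) = 0) → f p ∈ (toQ (G := G)).range) :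
    ∃ (y : P →+ MonoidAlgebra ℤ G) (a : ι → MonoidAlgebra ℤ G),
      (∀ (γ : G) (p : P), y (γ • p) = MonoidAlgebra.single γ 1 * y p) ∧
      ∀ p, f p = toQ (y p) + ∑ t, toQ (a t) * Λ t p := by
  let B : AddSubgroup P :=
    { carrier := {p | ∀ t (γ : G), χ t (γ • p) = 0}
      add_mem' := by
        intro a b ha hb t γ
        rw [smul_add, map_add, ha t γ, hb t γ, add_zero]
      zero_mem' := by
        intro t γ
        rw [smul_zero, map_zero]
      neg_mem' := by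
        intro a ha t γ
        rw [smul_neg, map_neg, ha t γ, neg_zero] }
  have h1 : ∀ b : B, ∃ z : MonoidAlgebra ℤ G, toQ z = f b := fun b => hf2 b b.2
  choose z hz using h1
  let ψ : B →+ MonoidAlgebra ℤ G :=
    { toFun := z
      map_zero' := by
        apply toQ_injective
        rw [hz, map_zero]
        exact map_zero f
      map_add' := by
        intro a b
        apply toQ_injective
        rw [hz, map_add, hz, hz]
        exact map_add f _ _ }
  have hM : 0 < ∏ t, m t := Finset.prod_pos fun t _ => hm t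
  have hχM : ∀ t p, (∏ t, m t) • χ t p = 0 := by
    intro t p
    obtain ⟨c, hc⟩ := Finset.dvd_prod_of_mem m (Finset.mem_univ t)
    rw [hc, mul_comm, mul_smul, hχ, smul_zero]
  obtain ⟨y, a, hy, h⟩ := Pool.Agent.K3h12.RSE.t_EXT G P ι 1 (∏ t, m t) hM χ
    hχM Λ (fun t γ p => hΛ1 t γ p)
    (fun t γ p => by rw [hΛ2, one_smul]) B
    (fun p => ⟨fun hp t γ => hp t γ, fun hp t γ => hp t γ⟩) ψ (by
      intro γ x y hxy
      apply toQ_injective
      change toQ (z y) = toQ (_ * z x)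
      rw [hz, map_mul, hz, toQ_single, hxy, hf1])
  refine ⟨y, a, hy, fun p => ?_⟩
  have hp : (∏ t, m t) • p ∈ B := by
    intro t γ
    rw [smul_comm, map_nsmul, hχM]
  have h2 := h ⟨(∏ t, m t) • p, hp⟩
  have h3 : toQ (ψ ⟨(∏ t, m t) • p, hp⟩) = f ((∏ t, m t) • p) := hz _
  have h4 : ∀ t, Λ t ((⟨(∏ t, m t) • p, hp⟩ : B) : P) = ((∏ t, m t : ℕ)) * Λ t p := by
    intro t
    change Λ t ((∏ t, m t) • p) = _
    rw [map_nsmul, nsmul_eq_mul]
  have h5 : toQ (y ((⟨(∏ t, m t) • p, hp⟩ : B) : P)) = ((∏ t, m t : ℕ)) * toQ (y p) := by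
    change toQ (y ((∏ t, m t) • p)) = _
    rw [map_nsmul, nsmul_eq_mul, map_mul, map_natCast]
  rw [h3, Nat.cast_one, one_mul, map_nsmul, nsmul_eq_mul, h5] at h2
  apply natCast_cancel hM
  rw [h2, mul_add, Finset.mul_sum]
  congr 1
  refine Finset.sum_congr rfl fun t _ => ?_
  rw [h4]
  ring

end repr

section

variable {F H G P Γ ι κ : Type} [Field F] [NumberField F] [Field H] [NumberField H] [Algebra F H]
  [CommGroup G] [Finite G] [MulSemiringAction G H] [AddCommGroup P] [DistribMulAction G P]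
  [Group Γ] {N : ℕ} [Fintype ι] [DecidableEq ι] [Fintype κ] [DecidableEq κ]

/-- the families which give homomorphisms; `Λ'` is fixed -/
def WsetT {A : Type} [AddCommGroup A] (ι : Type) [Fintype ι] (r : ℕ) (π : P →+ A)
    (Λ₀ : P →+ MonoidAlgebra ℚ G) (Λ' : κ → P →+ MonoidAlgebra ℚ G) :
    Set ((Fin r → ι ⊕ κ → MonoidAlgebra ℤ G) × (Fin r → P →+ MonoidAlgebra ℤ G)) :=
  {w | (∀ i (γ : G) (p : P), w.2 i (γ • p) = MonoidAlgebra.single γ 1 * w.2 i p) ∧
    ∀ i (p : P), π p = 0 → toQ (w.2 i p) +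
      (∑ t, toQ (w.1 i (Sum.inl t)) * Λ₀ p + ∑ t, toQ (w.1 i (Sum.inr t)) * Λ' t p) = 0}

/-- the data of a prime ideal `v` -/
structure Dat (D : RubinData F H G) (π : P →+ Additive (D.U ∅))
    (v : HeightOneSpectrum (𝓞 F)) where
  /-- the character -/
  χ : P →+ QZ
  /-- its order -/
  m : ℕ
  hm : 0 < m
  hχ : ∀ p, m • χ p = 0
  /-- the homomorphism -/
  Λ : P →+ MonoidAlgebra ℚ G
  hΛ1 : ∀ (γ : G) (p : P), Λ (γ • p) = MonoidAlgebra.single γ 1 * Λ p
  hΛ2 : ∀ (γ : G) (p : P), (((Λ p).coeff γ : ℚ) : QZ) = χ (γ⁻¹ • p)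
  hχU : ∀ p, (∀ γ : G, χ (γ • p) = 0) ↔ ∀ w : HeightOneSpectrum (𝓞 H), Above {v} w →
    w.valuation H ((((Additive.toMul (π p) : D.U ∅) : Hˣ) : H) - 1) < 1

/-- the element `1 - N v σ_v⁻¹` -/
def dv (D : RubinData F H G) (v : HeightOneSpectrum (𝓞 F)) : MonoidAlgebra ℚ G :=
  1 - MonoidAlgebra.single (D.σ v)⁻¹ (Ideal.absNorm v.asIdeal : ℚ)

/-- the relation with the element `g` -/
structure Dat.Rel {D : RubinData F H G} {π : P →+ Additive (D.U ∅)}
    {v : HeightOneSpectrum (𝓞 F)} (d : Dat D π v) (Λ₀ : P →+ MonoidAlgebra ℚ G)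
    (K : Coc G P Γ N) (g : Γ) : Prop where
  hΛ0 : ∀ p, π p = 0 → d.Λ p = Λ₀ p
  hg1 : ((Ideal.absNorm v.asIdeal : ℕ) : ZMod N) = K.κ g
  hg2 : K.res g = D.σ v
  hg3 : ∀ p, (((((dv D v) * d.Λ p).coeff 1) / N : ℚ) : QZ) = K.c g p

/-- the values at the Stark element -/
theorem delta_wvalT (D : RubinData F H G)
    (u : Wedge G D.r (D.U ∅))
    (π : P →+ Additive (D.U ∅)) (X : Fin u.n → Fin D.r → P)
    (hX : ∀ k j, π (X k j) = Additive.ofMul (u.x k j))
    (δ : ι → MonoidAlgebra ℚ G)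
    (Λ : ι → P →+ MonoidAlgebra ℚ G) (a : Fin D.r → ι → MonoidAlgebra ℤ G)
    (y : Fin D.r → P →+ MonoidAlgebra ℤ G)
    (f : Fin D.r → Additive (US D) →+ MonoidAlgebra ℚ G)
    (hf : ∀ i p, f i (inc D ∅ (π p)) = toQ (y i p) + ∑ t, toQ (a i t) * Λ t p) :
    (∏ t, δ t) * wval D (U_le D ∅) f u =
      Ph u.c X a y δ (fun t p => δ t * Λ t p) := by
  unfold wval Ph
  rw [Finset.mul_sum]
  refine Finset.sum_congr rfl fun k _ => ?_
  rw [← prod_mul_det]
  have h1 : (Matrix.of fun i j => f i (Additive.ofMul ⟨(u.x k j : Hˣ), U_le D ∅ (u.x k j).2⟩)) =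
      Matrix.of fun i j => toQ (y i (X k j)) + ∑ t, toQ (a i t) * Λ t (X k j) := by
    ext i j : 1
    simp only [Matrix.of_apply]
    rw [← hf, hX]
    rfl
  rw [h1]
  ring

/-- Rubin's conjecture for `T` in terms of the Stark element for the empty set -/
theorem rubin_iff_intT [hG : IsGaloisGroup G F H]
    (D : RubinData F H G)
    (u₁ : Wedge G D.r (D.U ∅)) (e₁ : D.InER u₁) (s₁ : D.IsStark ∅ u₁)
    (T : Finset (HeightOneSpectrum (𝓞 F))) (hT : Disjoint D.S T) :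
    D.Rubin T ↔ ∀ f : Fin D.r → Additive (US D) →+ MonoidAlgebra ℚ G,
      (∀ i, IsEquiv D (f i)) → (∀ i, IntOn D T (f i)) →
      D.delta T * wval D (U_le D ∅) f u₁ ∈ (toQ (G := G)).range := by
  have hU := Pool.Agent.K3h3.RS.t_UNIQ
      (Pool.Agent.K3h40.RS.t_SPANREG Pool.Agent.K3h40.RS.t_LOGINJ)
  exact ⟨fun h => intAt_of_rubin hU D (U_le D ∅) u₁ e₁ s₁ _ h,
      fun h => rubin_of_intAt D u₁ e₁ s₁ _ hT h⟩

theorem rubin_iff_goodT [hG : IsGaloisGroup G F H] [DecidableEq (HeightOneSpectrum (𝓞 F))]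
    (D : RubinData F H G)
    [AddGroup.FG P]
    (hP : ∀ p : P, IsOfFinAddOrder p → p = 0) (hN : 0 < N) (π : P →+ Additive (D.U ∅))
    (hπ : Function.Surjective π)
    (hπe : ∀ (γ : G) (p : P), ((Additive.toMul (π (γ • p)) : D.U ∅) : Hˣ) =
      act γ ((Additive.toMul (π p) : D.U ∅) : Hˣ))
    (K : Coc G P Γ N) (u₁ : Wedge G D.r (D.U ∅)) (e₁ : D.InER u₁) (s₁ : D.IsStark ∅ u₁)
    (X : Fin u₁.n → Fin D.r → P)
    (hX : ∀ k j, π (X k j) = Additive.ofMul (u₁.x k j))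
    (hc : ∀ k, (N : MonoidAlgebra ℚ G) * u₁.c k ∈ (toQ (G := G)).range)
    (Λ₀ : P →+ MonoidAlgebra ℚ G) (v : ι → HeightOneSpectrum (𝓞 F))
    (v' : κ → HeightOneSpectrum (𝓞 F))
    (hinj : Function.Injective (Sum.elim v v')) (hv : ∀ t, Sum.elim v v' t ∉ D.S)
    (g : ι → Γ) (dat : ∀ t, Dat D π (v t)) (dat' : ∀ t, Dat D π (v' t))
    (hdat' : ∀ t p, dv D (v' t) * (dat' t).Λ p ∈ (toQ (G := G)).range)
    (hrel : ∀ t, (dat t).Rel Λ₀ K (g t)) :
    D.Rubin (Finset.univ.image (Sum.elim v v')) ↔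
      GoodT K u₁.c X (WsetT ι D.r π Λ₀ (fun t => (dat' t).Λ)) (fun t => dv D (v' t))
        (fun t p => dv D (v' t) * (dat' t).Λ p) g := by
  -- the good elements
  obtain ⟨k, C, hL⟩ := exists_liftT hP hN K g
  have hδ' : ∀ t, dv D (v' t) ∈ (toQ (G := G)).range := fun t =>
    sub_mem (one_mem _) ⟨MonoidAlgebra.single (D.σ (v' t))⁻¹
      (Ideal.absNorm (v' t).asIdeal : ℤ), by simp [toQ]⟩
  have hdl : ∀ t, dl K (g t) (Ideal.absNorm (v t).asIdeal) = dv D (v t) := by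
    intro t
    unfold dl dv
    rw [(hrel t).hg2]
  -- all data
  let χ : ι ⊕ κ → P →+ QZ := Sum.elim (fun t => (dat t).χ) (fun t => (dat' t).χ)
  let m : ι ⊕ κ → ℕ := Sum.elim (fun t => (dat t).m) (fun t => (dat' t).m)
  let Λ : ι ⊕ κ → P →+ MonoidAlgebra ℚ G := Sum.elim (fun t => (dat t).Λ) (fun t => (dat' t).Λ)
  let vv : ι ⊕ κ → HeightOneSpectrum (𝓞 F) := Sum.elim v v'
  have hm : ∀ t, 0 < m t := by
    rintro (t | t)
    · exact (dat t).hm
    · exact (dat' t).hm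
  have hχ : ∀ t p, m t • χ t p = 0 := by
    rintro (t | t)
    · exact (dat t).hχ
    · exact (dat' t).hχ
  have hΛ1 : ∀ t (γ : G) (p : P), Λ t (γ • p) = MonoidAlgebra.single γ 1 * Λ t p := by
    rintro (t | t)
    · exact (dat t).hΛ1
    · exact (dat' t).hΛ1
  have hΛ2 : ∀ t (γ : G) (p : P), (((Λ t p).coeff γ : ℚ) : QZ) = χ t (γ⁻¹ • p) := by
    rintro (t | t)
    · exact (dat t).hΛ2
    · exact (dat' t).hΛ2
  have hχU : ∀ t p, (∀ γ : G, χ t (γ • p) = 0) ↔ ∀ w : HeightOneSpectrum (𝓞 H),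
      Above {vv t} w → w.valuation H ((((Additive.toMul (π p) : D.U ∅) : Hˣ) : H) - 1) < 1 := by
    rintro (t | t)
    · exact (dat t).hχU
    · exact (dat' t).hχU
  have hgood : GoodT K u₁.c X (WsetT ι D.r π Λ₀ (fun t => (dat' t).Λ)) (fun t => dv D (v' t))
        (fun t p => dv D (v' t) * (dat' t).Λ p) g ↔
      ∀ w ∈ WsetT ι D.r π Λ₀ (fun t => (dat' t).Λ),
      Ph u₁.c X w.1 w.2 (fun t => dv D (vv t)) (fun t p => dv D (vv t) * Λ t p) ∈
        (toQ (G := G)).range := by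
    rw [goodT_iff hN K u₁.c X hc _ _ _ hδ' hdat' g hL]
    refine forall₂_congr fun w _ => ?_
    rw [← liftT_unique hN K u₁.c X hc _ _ hδ' hdat' w.1 w.2 g
      (fun t p => dv D (v t) * (dat t).Λ p) hL
      (fun t => (hrel t).hg1) (fun t γ p => by rw [(dat t).hΛ1]; ring)
      (fun t p => (hrel t).hg3 p)]
    have e1 : Sum.elim (fun t => dl K (g t) (Ideal.absNorm (v t).asIdeal))
        (fun t => dv D (v' t)) = fun t => dv D (vv t) := by
      funext t
      rcases t with t | t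
      · exact hdl t
      · rfl
    have e2 : Sum.elim (fun t p => dv D (v t) * (dat t).Λ p)
        (fun t p => dv D (v' t) * (dat' t).Λ p) = fun t p => dv D (vv t) * Λ t p := by
      funext t
      rcases t with t | t <;> rfl
    rw [e1, e2]
  have hTS : Disjoint D.S (Finset.univ.image vv) := by
    rw [Finset.disjoint_right]
    intro x hx
    obtain ⟨t, -, rfl⟩ := Finset.mem_image.1 hx
    exact hv t
  have hδ : D.delta (Finset.univ.image vv) = ∏ t, dv D (vv t) := by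
    unfold RubinData.delta
    rw [Finset.prod_image (fun a _ b _ h => hinj h)]
    rfl
  change D.Rubin (Finset.univ.image vv) ↔ _
  rw [rubin_iff_intT D u₁ e₁ s₁ _ hTS, hgood, hδ]
  have hmemU : ∀ x : D.U ∅, (x : Hˣ) ∈ D.U (Finset.univ.image vv) ↔
      ∀ t, ∀ w : HeightOneSpectrum (𝓞 H), Above {vv t} w →
        w.valuation H (((x : Hˣ) : H) - 1) < 1 := by
    intro x
    constructor
    · intro h t w hw
      refine h.2 w ?_
      obtain ⟨v₁, hv₁, hw'⟩ := above_mem hw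
      rw [Set.mem_singleton_iff] at hv₁
      subst hv₁
      rw [above_iff hw', Finset.mem_coe]
      exact Finset.mem_image_of_mem _ (Finset.mem_univ _)
    · intro h
      refine ⟨x.2.1, fun w hw => ?_⟩
      obtain ⟨v₁, hv₁, hw'⟩ := above_mem hw
      rw [Finset.mem_coe, Finset.mem_image] at hv₁
      obtain ⟨t, -, rfl⟩ := hv₁
      exact h t w ((above_iff hw').2 rfl)
  have hmemP : ∀ p, ((Additive.toMul (π p) : D.U ∅) : Hˣ) ∈ D.U (Finset.univ.image vv) ↔
      ∀ t (γ : G), χ t (γ • p) = 0 := by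
    intro p
    rw [hmemU]
    exact forall_congr' fun t => (hχU t p).symm
  have hrange : ∀ p, ((Additive.toMul (π p) : D.U ∅) : Hˣ) ∈ D.U (Finset.univ.image vv) →
      ∀ t, Λ t p ∈ (toQ (G := G)).range := by
    intro p hp t
    rw [mem_range_toQ]
    intro γ
    rw [← QZ_zero, hΛ2]
    exact (hmemP p).1 hp t γ⁻¹
  have hpre : ∀ x : D.U ∅, ∃ p, π p = Additive.ofMul x := fun x => hπ _
  have hle : D.U (Finset.univ.image vv) ≤ D.U ∅ := by
    intro x hx
    refine ⟨hx.1, fun w hw => ?_⟩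
    obtain ⟨v₁, hv₁, hw'⟩ := above_mem hw
    rw [Finset.mem_coe] at hv₁
    exact absurd hv₁ (Finset.notMem_empty _)
  have hsum : ∀ (a : ι ⊕ κ → MonoidAlgebra ℤ G) p, π p = 0 →
      ∑ t, toQ (a t) * Λ t p =
        ∑ t, toQ (a (Sum.inl t)) * Λ₀ p + ∑ t, toQ (a (Sum.inr t)) * (dat' t).Λ p := by
    intro a p hp
    rw [Fintype.sum_sum_type]
    congr 1
    refine Finset.sum_congr rfl fun t _ => ?_
    change toQ (a (Sum.inl t)) * (dat t).Λ p = _
    rw [(hrel t).hΛ0 p hp]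
  constructor
  · intro h w hw
    have h1 : ∀ i, ∃ f : Additive (US D) →+ MonoidAlgebra ℚ G, IsEquiv D f ∧ ∀ p,
        f (inc D ∅ (π p)) = toQ (w.2 i p) + ∑ t, toQ (w.1 i t) * Λ t p := by
      intro i
      obtain ⟨f, hf⟩ := descend π hπ ((toQ (G := G)).toAddMonoidHom.comp (w.2 i) +
        ∑ t, (AddMonoidHom.mulLeft (toQ (w.1 i t))).comp (Λ t)) (by
          intro p hp
          have h2 := hw.2 i p hp
          rw [← hsum _ p hp] at h2
          rw [AddMonoidHom.add_apply, AddMonoidHom.finsetSum_apply]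
          exact h2)
      have hf2 : ∀ p, f (π p) = toQ (w.2 i p) + ∑ t, toQ (w.1 i t) * Λ t p := by
        intro p
        rw [hf, AddMonoidHom.add_apply, AddMonoidHom.finsetSum_apply]
        rfl
      obtain ⟨f₂, h3, h4⟩ := exists_extend D ∅ (Finset.disjoint_empty_right _) f (by
        intro γ x y hxy
        obtain ⟨p, hp⟩ := hpre x
        have h3 : Additive.ofMul y = π (γ • p) := by
          apply Additive.toMul.injective
          apply Subtype.ext
          rw [hπe, hp]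
          exact hxy
        rw [h3, ← hp, hf2, hf2, hw.1, map_mul, toQ_single, mul_add, Finset.mul_sum]
        congr 1
        refine Finset.sum_congr rfl fun t _ => ?_
        rw [hΛ1]
        ring)
      exact ⟨f₂, h3, fun p => by rw [h4, hf2]⟩
    choose f hfe hf using h1
    have h2 := h f hfe ?_
    · rw [delta_wvalT D u₁ π X hX _ Λ w.1 w.2 f hf] at h2
      exact h2
    · intro i x hx
      obtain ⟨p, hp⟩ := hpre ⟨(x : Hˣ), hle hx⟩
      have h3 : Additive.ofMul x = inc D ∅ (π p) := by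
        rw [hp]
        rfl
      rw [h3, hf]
      refine add_mem ⟨_, rfl⟩ (sum_mem fun t _ => mul_mem ⟨_, rfl⟩ (hrange p ?_ t))
      rw [hp]
      exact hx
  · intro h f hf hi
    have h1 : ∀ i, ∃ (y : P →+ MonoidAlgebra ℤ G) (a : ι ⊕ κ → MonoidAlgebra ℤ G),
        (∀ (γ : G) (p : P), y (γ • p) = MonoidAlgebra.single γ 1 * y p) ∧
        ∀ p, f i (inc D ∅ (π p)) = toQ (y p) + ∑ t, toQ (a t) * Λ t p := by
      intro i
      refine reprT χ m hm hχ Λ hΛ1 hΛ2 (((f i).comp (inc D ∅)).comp π) ?_ ?_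
      · intro γ p
        exact hf i γ (Additive.toMul (inc D ∅ (π p))) (Additive.toMul (inc D ∅ (π (γ • p))))
          (hπe γ p)
      · intro p hp
        exact hi i (Additive.toMul (inc D ∅ (π p))) ((hmemP p).2 hp)
    choose y a hy hya using h1
    rw [delta_wvalT D u₁ π X hX _ Λ a y f hya]
    refine h (a, y) ⟨hy, fun i p hp => ?_⟩
    have h3 : toQ (y i p) + ∑ t, toQ (a i t) * Λ t p = 0 := by
      rw [← hya, hp, map_zero, map_zero]
    rw [hsum _ p hp] at h3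
    exact h3

end

end Pool.Agent.J6H32.RT
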