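import Pool.Agent.J6H32.RT.AlgT

/-!
# Rubin's conjecture and Frobenius classes: the good tuples
-/

set_option autoImplicit false
set_option linter.unusedSectionVars false

open Filter Topology commutatorElement

noncomputable section

namespace Pool.Agent.J6H32.RT

open Pool.Agent.K3h30.RS Pool.Agent.J6H32.RU

variable {G P Γ ι κ : Type} [CommGroup G] [Finite G] [AddCommGroup P] [DistribMulAction G P]
  [Group Γ] [Fintype ι] [DecidableEq ι] [Fintype κ] [DecidableEq κ] {N : ℕ} {r n : ℕ}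

/-- the element `1 - k res(g)⁻¹` -/
def dl (K : Coc G P Γ N) (g : Γ) (k : ℕ) : MonoidAlgebra ℚ G :=
  1 - MonoidAlgebra.single (K.res g)⁻¹ (k : ℚ)

theorem dl_mem (K : Coc G P Γ N) (g : Γ) (k : ℕ) : dl K g k ∈ (toQ (G := G)).range :=
  sub_mem (one_mem _) ⟨MonoidAlgebra.single (K.res g)⁻¹ (k : ℤ), by simp [toQ]⟩

/-- the good tuples; `δ'`, `C'` are fixed -/
def GoodT (K : Coc G P Γ N) (cc : Fin n → MonoidAlgebra ℚ G) (X : Fin n → Fin r → P)
    (W : Set ((Fin r → ι ⊕ κ → MonoidAlgebra ℤ G) × (Fin r → P →+ MonoidAlgebra ℤ G)))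
    (δ' : κ → MonoidAlgebra ℚ G) (C' : κ → P → MonoidAlgebra ℚ G)
    (g : ι → Γ) : Prop :=
  ∀ w ∈ W, ∀ (k : ι → ℕ) (C : ι → P →+ MonoidAlgebra ℤ G), (∀ t, K.Lift (g t) (k t) (C t)) →
    Ph cc X w.1 w.2 (Sum.elim (fun t => dl K (g t) (k t)) δ')
      (Sum.elim (fun t p => toQ (C t p)) C') ∈ (toQ (G := G)).range

/-- two lifts of the same data -/
theorem lift_cong (hN : 0 < N) (K : Coc G P Γ N) (g : Γ) {k k' : ℕ}
    {C : P →+ MonoidAlgebra ℤ G} (C' : P → MonoidAlgebra ℚ G) (h : K.Lift g k C)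
    (hk' : (k' : ZMod N) = K.κ g)
    (he : ∀ (γ : G) (p : P), C' (γ • p) = MonoidAlgebra.single γ 1 * C' p)
    (hc' : ∀ p, ((((C' p).coeff 1) / N : ℚ) : QZ) = K.c g p) :
    (∃ z ∈ (toQ (G := G)).range, dl K g k' - dl K g k = N * z) ∧
      ∀ p, ∃ z ∈ (toQ (G := G)).range, C' p - toQ (C p) = N * z := by
  obtain ⟨h1, h2, h3⟩ := h
  obtain ⟨z, hz, hz'⟩ := nat_congr (G := G) (K.res g)⁻¹ k k' (h1.trans hk'.symm)
  refine ⟨⟨z, hz, ?_⟩, ?_⟩
  · unfold dl
    rw [← hz']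
    ring
  · refine div_of_zero hN (fun p => C' p - toQ (C p)) ?_ ?_
    · intro γ p
      rw [he, h2, map_mul, toQ_single, mul_sub]
    · intro p
      rw [MonoidAlgebra.coeff_sub, Finsupp.sub_apply, coeff_toQ, sub_div, AddCircle.coe_sub, hc',
        h3, sub_self]

theorem range_of_cong {C' : MonoidAlgebra ℚ G} {C : MonoidAlgebra ℤ G}
    (h : ∃ z ∈ (toQ (G := G)).range, C' - toQ C = N * z) : C' ∈ (toQ (G := G)).range := by
  obtain ⟨z, hz, hz'⟩ := h
  have h1 : C' = toQ C + N * z := by rw [← hz']; ring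
  rw [h1]
  exact add_mem ⟨_, rfl⟩ (mul_mem ⟨(N : MonoidAlgebra ℤ G), by rw [map_natCast]⟩ hz)

theorem neg_cong {x y : MonoidAlgebra ℚ G}
    (h : ∃ z ∈ (toQ (G := G)).range, x - y = N * z) :
    ∃ z ∈ (toQ (G := G)).range, y - x = N * z := by
  obtain ⟨z, hz, hz'⟩ := h
  exact ⟨-z, neg_mem hz, by rw [mul_neg, ← hz']; ring⟩

theorem cong_sum {x y : ι → MonoidAlgebra ℚ G} {z : κ → MonoidAlgebra ℚ G}
    (h : ∀ t, ∃ e ∈ (toQ (G := G)).range, x t - y t = N * e) (t : ι ⊕ κ) :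
    ∃ e ∈ (toQ (G := G)).range, Sum.elim x z t - Sum.elim y z t = N * e := by
  rcases t with t | t
  · exact h t
  · exact ⟨0, zero_mem _, by simp⟩

theorem cong_sum' {x y : ι → P → MonoidAlgebra ℚ G} {z : κ → P → MonoidAlgebra ℚ G}
    (h : ∀ t p, ∃ e ∈ (toQ (G := G)).range, x t p - y t p = N * e) (t : ι ⊕ κ) (p : P) :
    ∃ e ∈ (toQ (G := G)).range, Sum.elim x z t p - Sum.elim y z t p = N * e := by
  rcases t with t | t
  · exact h t p
  · exact ⟨0, zero_mem _, by simp⟩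

section

variable (hN : 0 < N) (K : Coc G P Γ N) (cc : Fin n → MonoidAlgebra ℚ G)
    (X : Fin n → Fin r → P)
    (hc : ∀ k, (N : MonoidAlgebra ℚ G) * cc k ∈ (toQ (G := G)).range)
    (W : Set ((Fin r → ι ⊕ κ → MonoidAlgebra ℤ G) × (Fin r → P →+ MonoidAlgebra ℤ G)))
    (δ' : κ → MonoidAlgebra ℚ G) (C' : κ → P → MonoidAlgebra ℚ G)
    (hδ' : ∀ t, δ' t ∈ (toQ (G := G)).range) (hC' : ∀ t p, C' t p ∈ (toQ (G := G)).range)

include hN hc hδ' hC' in
theorem liftT_unique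
    (a : Fin r → ι ⊕ κ → MonoidAlgebra ℤ G) (y : Fin r → P →+ MonoidAlgebra ℤ G) (g : ι → Γ)
    {k k' : ι → ℕ} {C : ι → P →+ MonoidAlgebra ℤ G} (C₂ : ι → P → MonoidAlgebra ℚ G)
    (h : ∀ t, K.Lift (g t) (k t) (C t))
    (hk' : ∀ t, (k' t : ZMod N) = K.κ (g t))
    (he : ∀ t (γ : G) (p : P), C₂ t (γ • p) = MonoidAlgebra.single γ 1 * C₂ t p)
    (hc' : ∀ t p, ((((C₂ t p).coeff 1) / N : ℚ) : QZ) = K.c (g t) p) :
    Ph cc X a y (Sum.elim (fun t => dl K (g t) (k' t)) δ') (Sum.elim C₂ C') ∈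
      (toQ (G := G)).range ↔
    Ph cc X a y (Sum.elim (fun t => dl K (g t) (k t)) δ')
      (Sum.elim (fun t p => toQ (C t p)) C') ∈ (toQ (G := G)).range := by
  have hl := fun t => lift_cong hN K (g t) (C₂ t) (h t) (hk' t) (he t) (hc' t)
  constructor
  · refine Ph_congr cc X a y N hc _ _ _ _ ?_ ?_
      (cong_sum fun t => neg_cong (hl t).1)
      (cong_sum' fun t p => neg_cong ((hl t).2 p))
    · rintro (t | t)
      · exact dl_mem K _ _
      · exact hδ' t
    · rintro (t | t) p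
      · exact range_of_cong ((hl t).2 p)
      · exact hC' t p
  · refine Ph_congr cc X a y N hc _ _ _ _ ?_ ?_
      (cong_sum fun t => (hl t).1) (cong_sum' fun t p => (hl t).2 p)
    · rintro (t | t)
      · exact dl_mem K _ _
      · exact hδ' t
    · rintro (t | t) p
      · exact ⟨_, rfl⟩
      · exact hC' t p

theorem exists_liftT [AddGroup.FG P] (hP : ∀ p : P, IsOfFinAddOrder p → p = 0) (hN : 0 < N)
    (K : Coc G P Γ N) (g : ι → Γ) :
    ∃ (k : ι → ℕ) (C : ι → P →+ MonoidAlgebra ℤ G), ∀ t, K.Lift (g t) (k t) (C t) := by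
  choose k C h using fun t => exists_lift hP hN K (g t)
  exact ⟨k, C, h⟩

include hN hc hδ' hC' in
theorem goodT_iff (g : ι → Γ)
    {k : ι → ℕ} {C : ι → P →+ MonoidAlgebra ℤ G} (h : ∀ t, K.Lift (g t) (k t) (C t)) :
    GoodT K cc X W δ' C' g ↔ ∀ w ∈ W,
      Ph cc X w.1 w.2 (Sum.elim (fun t => dl K (g t) (k t)) δ')
        (Sum.elim (fun t p => toQ (C t p)) C') ∈ (toQ (G := G)).range := by
  constructor
  · intro hg w hw
    exact hg w hw k C h
  · intro hg w hw k' C₂ h'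
    refine (liftT_unique hN K cc X hc δ' C' hδ' hC' w.1 w.2 g (fun t p => toQ (C₂ t p)) h
      (fun t => (h' t).1) ?_ ?_).2 (hg w hw)
    · intro t γ p
      rw [(h' t).2.1, map_mul, toQ_single]
    · intro t p
      rw [coeff_toQ]
      exact (h' t).2.2 p

theorem lift_one (K : Coc G P Γ N) : K.Lift 1 1 0 := by
  have h0 : ∀ p, K.c 1 p = 0 := by
    intro p
    have h1 := K.mul 1 1 1 (by rw [map_one, Nat.cast_one]) p
    rw [mul_one, map_one, inv_one, one_smul, one_smul] at h1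
    exact left_eq_add.1 h1
  refine ⟨by rw [map_one, Nat.cast_one], fun γ p => by simp, fun p => ?_⟩
  rw [h0]
  simp

theorem lift_upd (K : Coc G P Γ N) (g : ι → Γ) (k : ι → ℕ) (C : ι → P →+ MonoidAlgebra ℤ G)
    (h : ∀ t, K.Lift (g t) (k t) (C t)) (t₀ : ι) (g₀ : Γ) (k₀ : ℕ) (C₀ : P →+ MonoidAlgebra ℤ G)
    (h₀ : K.Lift g₀ k₀ C₀) : ∀ t, K.Lift (Function.update g t₀ g₀ t) (Function.update k t₀ k₀ t)
      (Function.update C t₀ C₀ t) := by
  intro t
  by_cases ht : t = t₀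
  · subst ht
    simpa using h₀
  · simpa [ht] using h t

theorem dl_upd (K : Coc G P Γ N) (g : ι → Γ) (k : ι → ℕ) (t₀ : ι) (g₀ : Γ) (k₀ : ℕ)
    (δ' : κ → MonoidAlgebra ℚ G) :
    Sum.elim (fun t => dl K (Function.update g t₀ g₀ t) (Function.update k t₀ k₀ t)) δ' =
      Function.update (Sum.elim (fun t => dl K (g t) (k t)) δ') (Sum.inl t₀) (dl K g₀ k₀) := by
  funext t
  rcases t with t | t
  · by_cases ht : t = t₀
    · subst ht
      simp
    · simp [ht]
  · simp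

theorem C_upd (C : ι → P →+ MonoidAlgebra ℤ G) (t₀ : ι) (C₀ : P →+ MonoidAlgebra ℤ G)
    (C' : κ → P → MonoidAlgebra ℚ G) :
    Sum.elim (fun t p => toQ (Function.update C t₀ C₀ t p)) C' =
      Function.update (Sum.elim (fun t p => toQ (C t p)) C') (Sum.inl t₀)
        (fun p => toQ (C₀ p)) := by
  funext t
  rcases t with t | t
  · by_cases ht : t = t₀
    · subst ht
      simp
    · simp [ht]
  · simp

include hN hc hδ' hC' in
theorem goodT_zero [AddGroup.FG P] (hP : ∀ p : P, IsOfFinAddOrder p → p = 0) (g : ι → Γ)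
    (t₀ : ι) (x : Γ) (hx : K.Lift x 1 0) (hx1 : K.res x = 1) :
    GoodT K cc X W δ' C' (Function.update g t₀ x) := by
  obtain ⟨k, C, h⟩ := exists_liftT hP hN K g
  rw [goodT_iff hN K cc X hc W δ' C' hδ' hC' _ (lift_upd K g k C h t₀ x 1 0 hx)]
  intro w _
  rw [dl_upd, C_upd]
  have h1 : dl K x 1 = 0 := by
    unfold dl
    rw [hx1, inv_one, Nat.cast_one, ← MonoidAlgebra.one_def, sub_self]
  have h2 : (fun p => toQ ((0 : P →+ MonoidAlgebra ℤ G) p)) = fun _ => 0 := by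
    funext p
    simp
  rw [h1, h2, Ph_zero]
  exact zero_mem _

include hN hc hδ' hC' in
theorem goodT_one [AddGroup.FG P] (hP : ∀ p : P, IsOfFinAddOrder p → p = 0) (g : ι → Γ)
    (t₀ : ι) : GoodT K cc X W δ' C' (Function.update g t₀ 1) :=
  goodT_zero hN K cc X hc W δ' C' hδ' hC' hP g t₀ 1 (lift_one K) (map_one _)

theorem c_one (K : Coc G P Γ N) (p : P) : K.c 1 p = 0 := by
  have h1 := K.mul 1 1 1 (by rw [map_one, Nat.cast_one]) p
  rw [mul_one, map_one, inv_one, one_smul, one_smul] at h1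
  exact left_eq_add.1 h1

theorem c_mul (K : Coc G P Γ N) (x y : Γ) (hx : K.res x = 1) (hx' : K.κ x = 1) (p : P) :
    K.c (x * y) p = K.c x p + K.c y p := by
  rw [K.mul x y 1 (by rw [hx', Nat.cast_one]), hx, inv_one, one_smul, one_smul]

theorem κ_inv (K : Coc G P Γ N) (x : Γ) (hx' : K.κ x = 1) : K.κ x⁻¹ = 1 := by
  have h1 : K.κ (x * x⁻¹) = 1 := by rw [mul_inv_cancel, map_one]
  rwa [map_mul, hx', one_mul] at h1

theorem c_inv (K : Coc G P Γ N) (x : Γ) (hx : K.res x = 1) (hx' : K.κ x = 1) (p : P) :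
    K.c x⁻¹ p = - K.c x p := by
  have h1 := c_mul K x x⁻¹ hx hx' p
  rw [mul_inv_cancel, c_one] at h1
  exact (neg_eq_of_add_eq_zero_right h1.symm).symm

theorem lift_comm (K : Coc G P Γ N) (x y : Γ) (hx : K.res x = 1) (hx' : K.κ x = 1)
    (hy : K.res y = 1) (hy' : K.κ y = 1) : K.Lift ⁅x, y⁆ 1 0 := by
  have h1 : K.κ ⁅x, y⁆ = 1 := by
    rw [commutatorElement_def, map_mul, map_mul, map_mul, hx', hy', κ_inv K x hx',
      κ_inv K y hy']
    simp
  refine ⟨by rw [h1, Nat.cast_one], fun γ p => by simp, fun p => ?_⟩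
  have h2 : K.c ⁅x, y⁆ p = 0 := by
    rw [commutatorElement_def, mul_assoc, c_mul K (x * y), c_mul K x _ hx hx',
      c_mul K x⁻¹ _ (by rw [map_inv, hx, inv_one]) (κ_inv K x hx'), c_inv K x hx hx',
      c_inv K y hy hy']
    · abel
    · rw [map_mul, hx, hy, one_mul]
    · rw [map_mul, hx', hy', one_mul]
  rw [h2]
  simp

theorem res_comm (K : Coc G P Γ N) (a b : Γ) : K.res ⁅a, b⁆ = 1 ∧ K.κ ⁅a, b⁆ = 1 := by
  constructor
  · rw [commutatorElement_def, map_mul, map_mul, map_mul, map_inv, map_inv]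
    rw [mul_comm (K.res a), mul_assoc (K.res b), mul_inv_cancel, mul_one, mul_inv_cancel]
  · have h1 : K.κ a * K.κ a⁻¹ = 1 := by rw [← map_mul, mul_inv_cancel, map_one]
    have h2 : K.κ b * K.κ b⁻¹ = 1 := by rw [← map_mul, mul_inv_cancel, map_one]
    rw [commutatorElement_def, map_mul, map_mul, map_mul]
    calc K.κ a * K.κ b * K.κ a⁻¹ * K.κ b⁻¹ = (K.κ a * K.κ a⁻¹) * (K.κ b * K.κ b⁻¹) := by ring
      _ = 1 := by rw [h1, h2, one_mul]

include hN hc hδ' hC' in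
/-- double commutators are good -/
theorem goodT_comm [AddGroup.FG P] (hP : ∀ p : P, IsOfFinAddOrder p → p = 0) (g : ι → Γ)
    (t₀ : ι) (a b c d : Γ) :
    GoodT K cc X W δ' C' (Function.update g t₀ ⁅⁅a, b⁆, ⁅c, d⁆⁆) :=
  goodT_zero hN K cc X hc W δ' C' hδ' hC' hP g t₀ _
    (lift_comm K _ _ (res_comm K a b).1 (res_comm K a b).2 (res_comm K c d).1
      (res_comm K c d).2) (res_comm K _ _).1

include hN hc hδ' hC' in
theorem goodT_mul [AddGroup.FG P] (hP : ∀ p : P, IsOfFinAddOrder p → p = 0) (g : ι → Γ)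
    (t₀ : ι) (a b : Γ) (ha : GoodT K cc X W δ' C' (Function.update g t₀ a))
    (hb : GoodT K cc X W δ' C' (Function.update g t₀ b)) :
    GoodT K cc X W δ' C' (Function.update g t₀ (a * b)) := by
  obtain ⟨k, C, h⟩ := exists_liftT hP hN K g
  obtain ⟨k₁, C₁, h₁⟩ := exists_lift hP hN K a
  obtain ⟨k₂, C₂, h₂⟩ := exists_lift hP hN K b
  obtain ⟨k₃, C₃, h₃⟩ := exists_lift hP hN K (a * b)
  rw [goodT_iff hN K cc X hc W δ' C' hδ' hC' _ (lift_upd K g k C h t₀ a k₁ C₁ h₁)] at ha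
  rw [goodT_iff hN K cc X hc W δ' C' hδ' hC' _ (lift_upd K g k C h t₀ b k₂ C₂ h₂)] at hb
  rw [goodT_iff hN K cc X hc W δ' C' hδ' hC' _ (lift_upd K g k C h t₀ (a * b) k₃ C₃ h₃)]
  intro w hw
  have e₁ := ha w hw
  have e₂ := hb w hw
  rw [dl_upd, C_upd] at e₁ e₂ ⊢
  have hz : (MonoidAlgebra.single (K.res a)⁻¹ (k₁ : ℚ) : MonoidAlgebra ℚ G) ∈
      (toQ (G := G)).range :=
    ⟨MonoidAlgebra.single (K.res a)⁻¹ (k₁ : ℤ), by simp [toQ]⟩
  have e₃ := add_mem e₁ (mul_mem hz e₂)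
  rw [← Ph_add] at e₃
  refine Ph_congr cc X w.1 w.2 N hc _ _ _ _ ?_ ?_ ?_ ?_ e₃
  · intro t
    by_cases ht : t = Sum.inl t₀
    · subst ht
      rw [Function.update_self]
      exact add_mem (dl_mem K _ _) (mul_mem hz (dl_mem K _ _))
    · rw [Function.update_of_ne ht]
      rcases t with t | t
      · exact dl_mem K _ _
      · exact hδ' t
  · intro t p
    by_cases ht : t = Sum.inl t₀
    · subst ht
      rw [Function.update_self]
      exact add_mem ⟨_, rfl⟩ (mul_mem hz ⟨_, rfl⟩)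
    · rw [Function.update_of_ne ht]
      rcases t with t | t
      · exact ⟨_, rfl⟩
      · exact hC' t p
  · intro t
    by_cases ht : t = Sum.inl t₀
    · subst ht
      rw [Function.update_self, Function.update_self]
      have h5 : ((k₁ * k₂ : ℕ) : ZMod N) = k₃ := by
        rw [h₃.1, map_mul, Nat.cast_mul, h₁.1, h₂.1]
      obtain ⟨z, hz, hz'⟩ := nat_congr (G := G) (K.res (a * b))⁻¹ _ _ h5
      refine ⟨z, hz, ?_⟩
      unfold dl
      rw [← hz', mul_sub, mul_one, MonoidAlgebra.single_mul_single, map_mul, mul_inv,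
        Nat.cast_mul]
      ring
    · rw [Function.update_of_ne ht, Function.update_of_ne ht, sub_self]
      exact ⟨0, zero_mem _, by rw [mul_zero]⟩
  · intro t
    by_cases ht : t = Sum.inl t₀
    · subst ht
      rw [Function.update_self, Function.update_self]
      refine div_of_zero hN (fun p => toQ (C₃ p) - (toQ (C₁ p) +
        MonoidAlgebra.single (K.res a)⁻¹ (k₁ : ℚ) * toQ (C₂ p))) ?_ ?_
      · intro γ p
        rw [h₃.2.1, h₁.2.1, h₂.2.1, map_mul, map_mul, map_mul, toQ_single]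
        ring
      · intro p
        have h6 : (MonoidAlgebra.single (K.res a)⁻¹ (k₁ : ℚ) * toQ (C₂ p)).coeff 1 =
            k₁ * (((C₂ ((K.res a)⁻¹ • p)).coeff 1 : ℤ) : ℚ) := by
          rw [coeff_single_mul', inv_inv, mul_one,
            coeff_equiv (fun p => toQ (C₂ p)) (fun γ p => by rw [h₂.2.1, map_mul, toQ_single]),
            coeff_toQ]
        rw [MonoidAlgebra.coeff_sub, Finsupp.sub_apply, MonoidAlgebra.coeff_add,
          Finsupp.add_apply, h6, coeff_toQ, coeff_toQ, sub_div, add_div, mul_div_assoc,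
          AddCircle.coe_sub, AddCircle.coe_add, ← nsmul_eq_mul, AddCircle.coe_nsmul, h₃.2.2,
          h₁.2.2, h₂.2.2, K.mul a b k₁ h₁.1, sub_self]
    · rw [Function.update_of_ne ht, Function.update_of_ne ht]
      intro p
      rw [sub_self]
      exact ⟨0, zero_mem _, by rw [mul_zero]⟩

include hN hc hδ' hC' in
/-- the subgroup of the good elements, one entry of the tuple -/
theorem exists_goodSubT [Finite Γ] [AddGroup.FG P] (hP : ∀ p : P, IsOfFinAddOrder p → p = 0)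
    (g : ι → Γ) (t₀ : ι) : ∃ Γ' : Subgroup Γ, ∀ a, a ∈ Γ' ↔
      GoodT K cc X W δ' C' (Function.update g t₀ a) := by
  have hone := goodT_one hN K cc X hc W δ' C' hδ' hC' hP g t₀
  have hmul := goodT_mul hN K cc X hc W δ' C' hδ' hC' hP g t₀
  refine ⟨{ carrier := {h | GoodT K cc X W δ' C' (Function.update g t₀ h)}
            mul_mem' := fun {a b} ha hb => hmul a b ha hb
            one_mem' := hone
            inv_mem' := ?_ }, fun a => Iff.rfl⟩
  intro a ha
  have h1 : ∀ m : ℕ, GoodT K cc X W δ' C' (Function.update g t₀ (a ^ m)) := by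
    intro m
    induction m with
    | zero => rw [pow_zero]; exact hone
    | succ m ih => rw [pow_succ]; exact hmul _ _ ih ha
  have h2 : a⁻¹ = a ^ (orderOf a - 1) := by
    have h3 := orderOf_pos a
    rw [inv_eq_iff_mul_eq_one, ← pow_succ', Nat.sub_add_cancel h3, pow_orderOf_eq_one]
  change GoodT K cc X W δ' C' (Function.update g t₀ a⁻¹)
  rw [h2]
  exact h1 _

end

end Pool.Agent.J6H32.RT
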