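import Pool.Agent.J6H32.RT.Cnt

/-!
# The proportion of the sets with `m` elements with a property given by classes: the limit
-/

set_option autoImplicit false
set_option linter.unusedSectionVars false

open Finset Filter Topology

noncomputable section

namespace Pool.Agent.J6H32.RT

section

variable {pi : ℕ → ℝ} (hpi : Tendsto pi atTop atTop)

include hpi in
theorem const_div (a : ℝ) : Tendsto (fun X => a / pi X) atTop (𝓝 0) :=
  tendsto_const_nhds.div_atTop hpi

include hpi in
/-- a bounded change of the numerator -/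
theorem shift (f g : ℕ → ℝ) (a c : ℝ) (h : ∀ X, |f X - g X| ≤ a)
    (hf : Tendsto (fun X => f X / pi X) atTop (𝓝 c)) :
    Tendsto (fun X => g X / pi X) atTop (𝓝 c) := by
  have h1 : Tendsto (fun X => (g X - f X) / pi X) atTop (𝓝 0) := by
    refine squeeze_zero_norm' ?_ (const_div hpi a)
    filter_upwards [hpi.eventually_gt_atTop 0] with X hX
    rw [norm_div, Real.norm_eq_abs, Real.norm_eq_abs, abs_of_pos hX, abs_sub_comm]
    exact div_le_div_of_nonneg_right (h X) hX.le
  have h2 := hf.add h1
  rw [add_zero] at h2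
  refine h2.congr fun X => ?_
  rw [← add_div]
  congr 1
  ring

include hpi in
/-- falling factorials -/
theorem desc_lim (m : ℕ) (n : ℕ → ℕ) (hn : Tendsto (fun X => (n X : ℝ) / pi X) atTop (𝓝 1)) :
    Tendsto (fun X => ((n X).descFactorial m : ℝ) / pi X ^ m) atTop (𝓝 1) := by
  have h1 : Tendsto (fun X => ((n X : ℝ) / pi X) ^ m) atTop (𝓝 1) := by
    have := hn.pow m
    rwa [one_pow] at this
  have h2 : Tendsto (fun X => (((n X + 1 - m : ℕ) : ℝ) / pi X) ^ m) atTop (𝓝 1) := by
    have h3 : Tendsto (fun X => ((n X + 1 - m : ℕ) : ℝ) / pi X) atTop (𝓝 1) := by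
      refine shift hpi (fun X => (n X : ℝ)) _ (m + 1) 1 ?_ hn
      intro X
      have h4 : n X + 1 - m ≤ n X + 1 := Nat.sub_le _ _
      have h5 : n X + 1 ≤ (n X + 1 - m) + m := by omega
      have h4' : ((n X + 1 - m : ℕ) : ℝ) ≤ n X + 1 := by exact_mod_cast h4
      have h5' : (n X : ℝ) + 1 ≤ ((n X + 1 - m : ℕ) : ℝ) + m := by exact_mod_cast h5
      have h6 : (0 : ℝ) ≤ m := Nat.cast_nonneg _
      rw [abs_le]
      constructor <;> linarith
    have := h3.pow m
    rwa [one_pow] at this
  refine tendsto_of_tendsto_of_tendsto_of_le_of_le' h2 h1 ?_ ?_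
  · filter_upwards [hpi.eventually_gt_atTop 0] with X hX
    rw [div_pow]
    refine div_le_div_of_nonneg_right ?_ (by positivity)
    exact_mod_cast Nat.pow_sub_le_descFactorial (n X) m
  · filter_upwards [hpi.eventually_gt_atTop 0] with X hX
    rw [div_pow]
    refine div_le_div_of_nonneg_right ?_ (by positivity)
    exact_mod_cast Nat.descFactorial_le_pow (n X) m

end

section

variable {V C : Type} [Fintype C] (m : ℕ) (nrm : V → ℕ)
  (hfin : ∀ X : ℕ, {v : V | nrm v ≤ X}.Finite) {pi : ℕ → ℝ} (hpi : Tendsto pi atTop atTop)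
  (cl : V → C) (d : C → ℝ)
  (hd : ∀ c, Tendsto (fun X : ℕ => (Nat.card {v : V // cl v = c ∧ nrm v ≤ X} : ℝ) / pi X)
    atTop (𝓝 (d c)))
  (hsum : ∑ c, d c = 1) (bad : Finset V)
  (Rub : Finset V → Prop) (R : Set (Fin m → C))
  (hR : ∀ w : Fin m → V, Function.Injective w → (∀ i, w i ∉ bad) →
      ((∃ _ : DecidableEq V, Rub (Finset.univ.image w)) ↔ (fun i => cl (w i)) ∈ R))

include hfin hpi hd hsum hR in
open Classical in
theorem limit :
    Tendsto (fun X : ℕ => (Nat.card {T : Finset V // T.card = m ∧ (∀ v ∈ T, nrm v ≤ X) ∧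
        Rub T} : ℝ) / (Nat.card {T : Finset V // T.card = m ∧ ∀ v ∈ T, nrm v ≤ X} : ℝ)) atTop
      (𝓝 (∑ c ∈ Finset.univ.filter (fun c => c ∈ R), ∏ i, d (c i))) := by
  have hR' : ∀ w : Fin m → V, Function.Injective w → (∀ i, w i ∉ bad) →
      (Rub (Finset.univ.image w) ↔ (fun i => cl (w i)) ∈ R) := by
    intro w h1 h2
    rw [← hR w h1 h2]
    constructor
    · intro h
      exact ⟨_, h⟩
    · rintro ⟨inst, h⟩
      obtain rfl : inst = fun a b => Classical.propDecidable (a = b) := Subsingleton.elim _ _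
      exact h
  let P : ℕ → Finset V := fun X => (hfin X).toFinset
  have hP : ∀ X v, v ∈ P X ↔ nrm v ≤ X := fun X v => by
    simp [P]
  -- the cardinalities
  have e1 : ∀ X, Nat.card {T : Finset V // T.card = m ∧ (∀ v ∈ T, nrm v ≤ X) ∧ Rub T} *
      m.factorial = (Inj m (P X) Rub).card := by
    intro X
    rw [card_Inj]
    congr 1
    refine Nat.subtype_card _ fun T => ?_
    rw [Finset.mem_filter, Finset.mem_powersetCard]
    constructor
    · rintro ⟨⟨h1, h2⟩, h3⟩
      exact ⟨h2, fun v hv => (hP X v).1 (h1 hv), h3⟩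
    · rintro ⟨h2, h1, h3⟩
      exact ⟨⟨fun v hv => (hP X v).2 (h1 v hv), h2⟩, h3⟩
  have e2 : ∀ X, Nat.card {T : Finset V // T.card = m ∧ ∀ v ∈ T, nrm v ≤ X} *
      m.factorial = (P X).card.descFactorial m := by
    intro X
    rw [Nat.descFactorial_eq_factorial_mul_choose, ← Finset.card_powersetCard, mul_comm]
    congr 1
    refine Nat.subtype_card _ fun T => ?_
    rw [Finset.mem_powersetCard]
    constructor
    · rintro ⟨h1, h2⟩
      exact ⟨h2, fun v hv => (hP X v).1 (h1 hv)⟩
    · rintro ⟨h2, h1⟩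
      exact ⟨fun v hv => (hP X v).2 (h1 v hv), h2⟩
  have e3 : ∀ X c, Nat.card {v : V // cl v = c ∧ nrm v ≤ X} =
      ((P X).filter (fun v => cl v = c)).card := by
    intro X c
    refine Nat.subtype_card _ fun v => ?_
    rw [Finset.mem_filter, hP, and_comm]
  have e4 : ∀ X, (P X).card = ∑ c, ((P X).filter (fun v => cl v = c)).card := by
    intro X
    exact Finset.card_eq_sum_card_fiberwise (fun v _ => Finset.mem_coe.2 (Finset.mem_univ (cl v)))
  -- the limits
  have l1 : Tendsto (fun X => ((P X).card : ℝ) / pi X) atTop (𝓝 1) := by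
    rw [← hsum]
    refine (tendsto_finsetSum Finset.univ fun c _ => hd c).congr fun X => ?_
    rw [e4, Nat.cast_sum, Finset.sum_div]
    exact Finset.sum_congr rfl fun c _ => by rw [e3]
  have l2 : Tendsto (fun X => ((P X \ bad).card : ℝ) / pi X) atTop (𝓝 1) := by
    refine shift hpi _ _ bad.card 1 ?_ l1
    intro X
    have h1 : (P X \ bad).card ≤ (P X).card := Finset.card_le_card Finset.sdiff_subset
    have h2 := Finset.le_card_sdiff bad (P X)
    have h1' : ((P X \ bad).card : ℝ) ≤ (P X).card := by exact_mod_cast h1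
    have h2' : ((P X).card : ℝ) ≤ (P X \ bad).card + bad.card := by
      have : (P X).card ≤ (P X \ bad).card + bad.card := by omega
      exact_mod_cast this
    have h3 : (0 : ℝ) ≤ bad.card := Nat.cast_nonneg _
    rw [abs_le]
    constructor <;> linarith
  have l3 : ∀ c, Tendsto (fun X => (((P X \ bad).filter (fun v => cl v = c)).card : ℝ) / pi X)
      atTop (𝓝 (d c)) := by
    intro c
    refine shift hpi _ _ bad.card (d c) ?_ (hd c)
    intro X
    rw [e3]
    have h0 : (P X \ bad).filter (fun v => cl v = c) =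
        (P X).filter (fun v => cl v = c) \ bad := by
      ext v
      simp only [Finset.mem_filter, Finset.mem_sdiff]
      tauto
    rw [h0]
    have h1 : ((P X).filter (fun v => cl v = c) \ bad).card ≤
      ((P X).filter (fun v => cl v = c)).card := Finset.card_le_card Finset.sdiff_subset
    have h2 := Finset.le_card_sdiff bad ((P X).filter (fun v => cl v = c))
    have h1' : (((P X).filter (fun v => cl v = c) \ bad).card : ℝ) ≤
      ((P X).filter (fun v => cl v = c)).card := by exact_mod_cast h1
    have h2' : (((P X).filter (fun v => cl v = c)).card : ℝ) ≤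
        ((P X).filter (fun v => cl v = c) \ bad).card + bad.card := by
      have : ((P X).filter (fun v => cl v = c)).card ≤
        ((P X).filter (fun v => cl v = c) \ bad).card + bad.card := by omega
      exact_mod_cast this
    have h3 : (0 : ℝ) ≤ bad.card := Nat.cast_nonneg _
    rw [abs_le]
    constructor <;> linarith
  have l4 := desc_lim hpi m (fun X => (P X \ bad).card) l2
  have l5 := desc_lim hpi m (fun X => (P X).card) l1
  have l6 : Tendsto (fun X => ((P X).card : ℝ) ^ m / pi X ^ m) atTop (𝓝 1) := by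
    have := l1.pow m
    rw [one_pow] at this
    exact this.congr fun X => by rw [div_pow]
  have l7 : Tendsto (fun X => ((Tup m (P X \ bad) cl R).card : ℝ) / pi X ^ m) atTop
      (𝓝 (∑ c ∈ Finset.univ.filter (fun c => c ∈ R), ∏ i, d (c i))) := by
    refine (tendsto_finsetSum _ fun c _ => tendsto_finsetProd _ fun i _ => l3 (c i)).congr
      fun X => ?_
    rw [card_Tup, Nat.cast_sum, Finset.sum_div]
    refine Finset.sum_congr rfl fun c _ => ?_
    rw [Nat.cast_prod, Finset.prod_div_distrib, Finset.prod_const, Finset.card_univ,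
      Fintype.card_fin]
  have l8 : Tendsto (fun X => ((Inj m (P X) Rub).card : ℝ) / pi X ^ m) atTop
      (𝓝 (∑ c ∈ Finset.univ.filter (fun c => c ∈ R), ∏ i, d (c i))) := by
    have hlow := (l7.add l4).sub l6
    have hup := (l7.add l6).sub l4
    rw [add_sub_cancel_right] at hlow hup
    refine tendsto_of_tendsto_of_tendsto_of_le_of_le' hlow hup ?_ ?_
    · filter_upwards [hpi.eventually_gt_atTop 0] with X hX
      obtain ⟨-, h2⟩ := compare m (P X) bad cl Rub R hR'
      rw [← add_div, ← sub_div]
      refine div_le_div_of_nonneg_right ?_ (by positivity)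
      have h3 : ((Tup m (P X \ bad) cl R).card : ℝ) + ((P X \ bad).card.descFactorial m : ℝ) ≤
        ((Inj m (P X) Rub).card : ℝ) + ((P X).card : ℝ) ^ m := by exact_mod_cast h2
      linarith
    · filter_upwards [hpi.eventually_gt_atTop 0] with X hX
      obtain ⟨h2, -⟩ := compare m (P X) bad cl Rub R hR'
      rw [← add_div, ← sub_div]
      refine div_le_div_of_nonneg_right ?_ (by positivity)
      have h3 : ((Inj m (P X) Rub).card : ℝ) + ((P X \ bad).card.descFactorial m : ℝ) ≤
        ((Tup m (P X \ bad) cl R).card : ℝ) + ((P X).card : ℝ) ^ m := by exact_mod_cast h2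
      linarith
  have l9 := l8.div l5 one_ne_zero
  rw [div_one] at l9
  refine l9.congr' ?_
  filter_upwards [hpi.eventually_gt_atTop 0] with X hX
  simp only [Pi.div_apply]
  rw [← e1, ← e2, Nat.cast_mul, Nat.cast_mul]
  have h1 : pi X ^ m ≠ 0 := by positivity
  have h2 : (m.factorial : ℝ) ≠ 0 := by exact_mod_cast m.factorial_ne_zero
  rw [div_div_div_cancel_right₀ h1, mul_div_mul_right _ _ h2]

end

end Pool.Agent.J6H32.RT
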