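import Pool.Agent.J6H32.RT.KT

/-!
# Rubin's conjecture and the Frobenius classes in the field of the sets `{v}`
-/

set_option autoImplicit false
set_option linter.unusedSectionVars false

open NumberField IsDedekindDomain Polynomial commutatorElement

noncomputable section

namespace Pool.Agent.J6H32.RT

open Pool.Agent.K3h30.RS Pool.Agent.K3h8.RS Pool.Agent.K3h43.RS Pool.Agent.J6H32.RU

variable {F H G : Type} [Field F] [NumberField F] [Field H] [NumberField H] [Algebra F H]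
  [CommGroup G] [Finite G] [MulSemiringAction G H]

theorem mainK [hG : IsGaloisGroup G F H] [DecidableEq (HeightOneSpectrum (𝓞 F))]
    (D : RubinData F H G)
    {T₁ : Finset (HeightOneSpectrum (𝓞 F))} (h : D.Stark T₁) :
    ∃ (K : Type) (_ : Field K) (_ : NumberField K) (_ : Algebra F K) (_ : IsGalois F K)
      (bad : Finset (HeightOneSpectrum (𝓞 F))),
      (∀ a b c d : K ≃ₐ[F] K, ⁅⁅a, b⁆, ⁅c, d⁆⁆ = 1) ∧
      (∀ v : HeightOneSpectrum (𝓞 F), v ∉ bad → (D.Rubin {v} ↔ SplitsIn K v)) ∧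
      ∀ T₀ : Finset (HeightOneSpectrum (𝓞 F)), Disjoint D.S T₀ →
        (∀ T T' : Finset (HeightOneSpectrum (𝓞 F)), (∀ v ∈ T ∪ T', v ∉ bad ∧ v ∉ T₀) →
          ∀ e : T ≃ T', (∀ v : T, ∃ (τ : K ≃ₐ[F] K) (q q' : HeightOneSpectrum (𝓞 K)),
            FrobAt (v : HeightOneSpectrum (𝓞 F)) q τ ∧
            FrobAt (e v : HeightOneSpectrum (𝓞 F)) q' τ) →
            (D.Rubin (T₀ ∪ T) ↔ D.Rubin (T₀ ∪ T'))) ∧
        ∃ Γ' : Subgroup (K ≃ₐ[F] K), Γ'.Normal ∧ ∀ v : HeightOneSpectrum (𝓞 F),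
          v ∉ bad → v ∉ T₀ → ∀ (q : HeightOneSpectrum (𝓞 K)) (τ : K ≃ₐ[F] K), FrobAt v q τ →
            (D.Rubin (insert v T₀) ↔ τ ∈ Γ') := by
  obtain ⟨M, hM, key⟩ := exists_set D h
  obtain ⟨Z, -, hZ⟩ := exists_gen D
  obtain ⟨L, _, _, _, _, _, hgal, ⟨ζ, hζ⟩, hroots⟩ := exists_field F H M M hM hM Z
  have hζL : ∃ ζ : L, IsPrimitiveRoot ζ M := by
    refine ⟨ζ, IsPrimitiveRoot.coe_units_iff.2 ?_⟩
    rw [← hζ]
    exact IsPrimitiveRoot.orderOf ζ
  have hrt : ∀ u ∈ D.U ∅, ∃ y : L, y ^ M = algebraMap H L ((u : Hˣ) : H) := by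
    intro u hu
    obtain ⟨y, hy⟩ := hroots u (hZ u (U_le D ∅ hu))
    refine ⟨y, ?_⟩
    rw [← Units.val_pow_eq_pow_val, hy]
    rfl
  replace key := key L hζL hrt
  obtain ⟨R₀, hR₀, hsub₀⟩ := key ∅ (Finset.disjoint_empty_right _) Unit
  obtain ⟨Γ₀, hΓ₀, hcomm⟩ := hsub₀ (fun _ => 1) ()
  have e2 : ∀ g : L ≃ₐ[F] L, Function.update (fun _ : Unit => (1 : L ≃ₐ[F] L)) () g =
      fun _ => g := by
    intro g
    funext x
    simp
  -- a single prime ideal
  have hsingle : ∀ (T₀ : Finset (HeightOneSpectrum (𝓞 F))) (R : Set (Unit → (L ≃ₐ[F] L))),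
      (∀ v : Unit → HeightOneSpectrum (𝓞 F), Function.Injective v →
          (∀ t, GoodPrime D T₀ M (v t)) →
          ∀ g : Unit → (L ≃ₐ[F] L), (∀ t, ∃ Q, FrobAt (v t) Q (g t)) →
            (D.Rubin (T₀ ∪ Finset.univ.image v) ↔ g ∈ R)) →
      ∀ Γ' : Subgroup (L ≃ₐ[F] L), (∀ a, a ∈ Γ' ↔ Function.update (fun _ => 1) () a ∈ R) →
      ∀ v : HeightOneSpectrum (𝓞 F), GoodPrime D T₀ M v → ∀ (Q : HeightOneSpectrum (𝓞 L))
        (g : L ≃ₐ[F] L), FrobAt v Q g → (D.Rubin (insert v T₀) ↔ g ∈ Γ') := by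
    intro T₀ R hR Γ' hΓ' v hv Q g hQ
    have h2 := hR (fun _ => v) (fun _ _ _ => rfl) (fun _ => hv) (fun _ => g)
      (fun _ => ⟨Q, hQ⟩)
    have e1 : T₀ ∪ Finset.univ.image (fun _ : Unit => v) = insert v T₀ := by
      ext x
      simp [eq_comm]
    rw [e1] at h2
    rw [h2, hΓ', e2]
  have h0 := hsingle ∅ R₀ hR₀ Γ₀ hΓ₀
  -- the exceptional prime ideals
  have hbad2 : {v : HeightOneSpectrum (𝓞 F) | v.valuation F ((M : ℕ) : F) < 1}.Finite :=
    finite_lt _ (by exact_mod_cast hM.ne')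
  obtain ⟨fin, hfin⟩ := allowed_single D
  have hgood : ∀ v T₀, v ∉ D.S ∪ hbad2.toFinset → v ∉ T₀ → GoodPrime D T₀ M v := by
    intro v T₀ hv hv0
    rw [Finset.mem_union, not_or, Set.Finite.mem_toFinset] at hv
    refine ⟨hv.1, hv0, fun h3 => hv.2 ?_⟩
    have h4 : v.valuation F (algebraMap (𝓞 F) F ((M : ℕ) : 𝓞 F)) < 1 :=
      (v.valuation_lt_one_iff_mem (K := F) _).2 h3
    rw [map_natCast] at h4
    exact h4
  have hRf : ∀ v : HeightOneSpectrum (𝓞 F), v ∉ D.S ∪ hbad2.toFinset →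
      ∀ (Q : HeightOneSpectrum (𝓞 L)) (g : L ≃ₐ[F] L), FrobAt v Q g →
        (D.Rubin {v} ↔ g ∈ Γ₀) := by
    intro v hv Q g hQ
    exact h0 v (hgood v ∅ hv (Finset.notMem_empty v)) Q g hQ
  have hnorm : Γ₀.Normal := normal_of hRf
  -- all the subgroups contain `Γ₀`
  have hle : ∀ (T₀ : Finset (HeightOneSpectrum (𝓞 F))), Disjoint D.S T₀ →
      ∀ (ι : Type) [Fintype ι] [DecidableEq ι] (R : Set (ι → (L ≃ₐ[F] L))),
      (∀ v : ι → HeightOneSpectrum (𝓞 F), Function.Injective v →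
          (∀ t, GoodPrime D T₀ M (v t)) →
          ∀ g : ι → (L ≃ₐ[F] L), (∀ t, ∃ Q, FrobAt (v t) Q (g t)) →
            (D.Rubin (T₀ ∪ Finset.univ.image v) ↔ g ∈ R)) →
      ∀ (g : ι → (L ≃ₐ[F] L)) (t₀ : ι) (Γ' : Subgroup (L ≃ₐ[F] L)),
        (∀ a, a ∈ Γ' ↔ Function.update g t₀ a ∈ R) → Γ₀ ≤ Γ' := by
    intro T₀ hT₀ ι _ _ R hR g t₀ Γ' hΓ' a ha
    obtain ⟨v, hinj, hvbad, hQ⟩ := realize (Function.update g t₀ a)
      (D.S ∪ hbad2.toFinset ∪ (T₀ ∪ fin))
    have hv1 : ∀ t, v t ∉ D.S ∪ hbad2.toFinset := fun t ht =>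
      hvbad t (Finset.mem_union_left _ ht)
    have hv2 : ∀ t, v t ∉ T₀ := fun t ht =>
      hvbad t (Finset.mem_union_right _ (Finset.mem_union_left _ ht))
    have hv3 : v t₀ ∉ fin := fun ht =>
      hvbad t₀ (Finset.mem_union_right _ (Finset.mem_union_right _ ht))
    rw [hΓ', ← hR v hinj (fun t => hgood _ _ (hv1 t) (hv2 t)) _ hQ]
    obtain ⟨Q, hQ0⟩ := hQ t₀
    rw [Function.update_self] at hQ0
    have h1 : D.Rubin {v t₀} := (hRf _ (hv1 t₀) Q a hQ0).2 ha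
    refine rubin_mono D (v t₀) (hfin _ hv3).2.1 (hfin _ hv3).2.2 h1 _ ?_ ?_
    · rw [Finset.disjoint_union_right]
      refine ⟨hT₀, ?_⟩
      rw [Finset.disjoint_right]
      intro x hx
      obtain ⟨t, -, rfl⟩ := Finset.mem_image.1 hx
      exact fun h => hv1 t (Finset.mem_union_left _ h)
    · exact Finset.mem_union_right _ (Finset.mem_image_of_mem _ (Finset.mem_univ _))
  -- the field
  obtain ⟨bad₁, hbad₁⟩ := split_iff hRf
  obtain ⟨bad₂, hbad₂⟩ := exists_lift_frob (IntermediateField.fixedField Γ₀)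
  have hgalK : IsGalois F (IntermediateField.fixedField Γ₀) :=
    IsGalois.of_fixedField_normal_subgroup Γ₀
  let K := IntermediateField.fixedField Γ₀
  let rs : (L ≃ₐ[F] L) →* (K ≃ₐ[F] K) := AlgEquiv.restrictNormalHom K
  have hrs : ∀ (g : L ≃ₐ[F] L) (x : K), ((rs g x : K) : L) = g (x : L) := fun g x =>
    AlgEquiv.restrictNormal_commutes g K x
  have hsurj : Function.Surjective rs := AlgEquiv.restrictNormalHom_surjective L
  have hmem : ∀ g : L ≃ₐ[F] L, (∀ x : K, g (x : L) = x) → g ∈ Γ₀ := by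
    intro g hg
    rw [← IntermediateField.fixingSubgroup_fixedField Γ₀, IntermediateField.mem_fixingSubgroup_iff]
    intro x hx
    exact hg ⟨x, hx⟩
  have hker : ∀ g : L ≃ₐ[F] L, rs g = 1 → g ∈ Γ₀ := by
    intro g hg
    refine hmem g fun x => ?_
    rw [← hrs, hg]
    rfl
  have hker' : ∀ g : L ≃ₐ[F] L, g ∈ Γ₀ → rs g = 1 := by
    intro g hg
    ext x
    rw [hrs]
    exact x.2 ⟨g, hg⟩
  refine ⟨K, inferInstance, inferInstance, inferInstance, hgalK,
    D.S ∪ hbad2.toFinset ∪ (bad₁ ∪ bad₂), ?_, ?_, ?_⟩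
  · intro a b c d
    obtain ⟨a, rfl⟩ := hsurj a
    obtain ⟨b, rfl⟩ := hsurj b
    obtain ⟨c, rfl⟩ := hsurj c
    obtain ⟨d, rfl⟩ := hsurj d
    rw [← map_commutatorElement, ← map_commutatorElement, ← map_commutatorElement]
    exact hker' _ (hcomm a b c d)
  · intro v hv
    exact hbad₁ v fun h => hv (Finset.mem_union_right _ (Finset.mem_union_left _ h))
  · intro T₀ hT₀
    constructor
    · intro T T' hT e he
      obtain ⟨R, hR, hsub⟩ := key T₀ hT₀ T
      choose τ q q' hq hq' using he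
      have hTv : ∀ t : T, (t : HeightOneSpectrum (𝓞 F)) ∉
          D.S ∪ hbad2.toFinset ∪ (bad₁ ∪ bad₂) ∧ (t : HeightOneSpectrum (𝓞 F)) ∉ T₀ := fun t =>
        hT t.1 (Finset.mem_union_left _ t.2)
      have hTv' : ∀ t : T, (e t : HeightOneSpectrum (𝓞 F)) ∉
          D.S ∪ hbad2.toFinset ∪ (bad₁ ∪ bad₂) ∧ (e t : HeightOneSpectrum (𝓞 F)) ∉ T₀ := fun t =>
        hT (e t).1 (Finset.mem_union_right _ (e t).2)
      have hlift : ∀ t : T, ∃ (g : L ≃ₐ[F] L) (Q : HeightOneSpectrum (𝓞 L)),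
          FrobAt (t : HeightOneSpectrum (𝓞 F)) Q g ∧ ∀ x : K, g (x : L) = ((τ t x : K) : L) :=
        fun t => hbad₂ t.1 (fun h => (hTv t).1 (Finset.mem_union_right _
          (Finset.mem_union_right _ h))) (q t) (τ t) (hq t)
      have hlift' : ∀ t : T, ∃ (g : L ≃ₐ[F] L) (Q : HeightOneSpectrum (𝓞 L)),
          FrobAt (e t : HeightOneSpectrum (𝓞 F)) Q g ∧
            ∀ x : K, g (x : L) = ((τ t x : K) : L) :=
        fun t => hbad₂ (e t).1 (fun h => (hTv' t).1 (Finset.mem_union_right _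
          (Finset.mem_union_right _ h))) (q' t) (τ t) (hq' t)
      choose g Q hQ hgx using hlift
      choose g' Q' hQ' hgx' using hlift'
      have h1 := hR Subtype.val Subtype.val_injective (fun t => hgood _ _ (fun h => (hTv t).1
        (Finset.mem_union_left _ h)) (hTv t).2) g (fun t => ⟨Q t, hQ t⟩)
      have h2 := hR (fun t => (e t).1) (Subtype.val_injective.comp e.injective)
        (fun t => hgood _ _ (fun h => (hTv' t).1
        (Finset.mem_union_left _ h)) (hTv' t).2) g' (fun t => ⟨Q' t, hQ' t⟩)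
      have e1 : Finset.univ.image (Subtype.val : T → HeightOneSpectrum (𝓞 F)) = T := by
        ext x
        simp
      have e2 : Finset.univ.image (fun t : T => (e t).1) = T' := by
        ext x
        simp only [Finset.mem_image, Finset.mem_univ, true_and]
        constructor
        · rintro ⟨t, rfl⟩
          exact (e t).2
        · intro hx
          exact ⟨e.symm ⟨x, hx⟩, by simp⟩
      rw [e1] at h1
      rw [e2] at h2
      rw [h1, h2]
      refine replace R Γ₀ ?_ g g' ?_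
      · intro g t₀
        obtain ⟨Γ', h3, -⟩ := hsub g t₀
        exact ⟨Γ', h3, hle T₀ hT₀ T R hR g t₀ Γ' h3⟩
      · intro t
        refine hmem _ fun x => ?_
        change (g t).symm (g' t (x : L)) = x
        rw [hgx', ← hgx, AlgEquiv.symm_apply_apply]
    · obtain ⟨R, hR, hsub⟩ := key T₀ hT₀ Unit
      obtain ⟨Γ', hΓ', -⟩ := hsub (fun _ => 1) ()
      have h1 := hsingle T₀ R hR Γ' hΓ'
      have h2 := hle T₀ hT₀ Unit R hR _ _ Γ' hΓ'
      have h3 : Γ'.Normal := by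
        refine normal_of (bad := D.S ∪ hbad2.toFinset ∪ T₀)
          (R := fun v => D.Rubin (insert v T₀)) ?_
        intro v hv Q g hQ
        rw [Finset.mem_union, not_or] at hv
        exact h1 v (hgood _ _ hv.1 hv.2) Q g hQ
      refine ⟨Γ'.map rs, Subgroup.Normal.map h3 rs hsurj, ?_⟩
      intro v hv hv0 q τ hq
      obtain ⟨g, Q, hQ, hgx⟩ := hbad₂ v (fun h => hv (Finset.mem_union_right _
          (Finset.mem_union_right _ h))) q τ hq
      have hgτ : rs g = τ := by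
        ext x
        rw [hrs, hgx]
      rw [h1 v (hgood _ _ (fun h => hv (Finset.mem_union_left _ h)) hv0) Q g hQ]
      constructor
      · intro hg
        exact ⟨g, hg, hgτ⟩
      · rintro ⟨g₂, hg₂, hg₂'⟩
        have h4 : g₂⁻¹ * g ∈ Γ₀ := by
          refine hker _ ?_
          rw [map_mul, map_inv, hgτ, hg₂', inv_mul_cancel]
        have h5 := Γ'.mul_mem hg₂ (h2 h4)
        rwa [mul_inv_cancel_left] at h5

end Pool.Agent.J6H32.RT
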