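import Pool.Agent.J6H32.RT.Cls
import Pool.Agent.J6H32.RT.Lim
import Pool.Agent.J6H32.RT.MainK

/-!
# The proportion of the sets with `m` elements for which Rubin's conjecture is true
-/

set_option autoImplicit false
set_option linter.unusedSectionVars false

open NumberField IsDedekindDomain Filter Topology

noncomputable section

namespace Pool.Agent.J6H32.RT

open Pool.Agent.K3h30.RS Pool.Agent.K3h8.RS Pool.Agent.K3h43.RS Pool.Agent.J6H32.RU

open Classical in
/-- enumeration of the image of an injective tuple -/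
def enumE {V : Type} {m : ℕ} (w : Fin m → V) (hw : Function.Injective w) :
    Fin m ≃ (Finset.univ.image w : Finset V) :=
  Equiv.ofBijective (fun i => ⟨w i, Finset.mem_image_of_mem _ (Finset.mem_univ i)⟩) (by
    constructor
    · intro a b hab
      exact hw (congrArg Subtype.val hab)
    · intro t
      obtain ⟨i, -, hi⟩ := Finset.mem_image.1 t.2
      exact ⟨i, Subtype.ext hi⟩)

open Classical in
theorem enumE_val {V : Type} {m : ℕ} (w : Fin m → V) (hw : Function.Injective w) (i : Fin m) :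
    (enumE w hw i : V) = w i := rfl

open Classical in
/-- a lower bound for the sums over tuples of classes -/
theorem sum_lower {C : Type} [Fintype C] (m : ℕ) (d : C → ℝ) (hd0 : ∀ c, 0 ≤ d c)
    (hsum : ∑ c, d c = 1) (c₀ : C) (R : Set (Fin m → C)) (hR : ∀ c, (∃ i, c i = c₀) → c ∈ R) :
    1 - (1 - d c₀) ^ m ≤ ∑ c ∈ Finset.univ.filter (fun c => c ∈ R), ∏ i, d (c i) := by
  have h1 : ∑ c : Fin m → C, ∏ i, d (c i) = 1 := by
    have h := Finset.prod_univ_sum (fun _ : Fin m => (Finset.univ : Finset C)) (fun _ c => d c)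
    rw [Finset.prod_congr rfl (fun _ _ => hsum), Finset.prod_const_one,
      Fintype.piFinset_univ] at h
    exact h.symm
  have h2 : ∑ c ∈ Fintype.piFinset (fun _ : Fin m => (Finset.univ : Finset C).erase c₀),
      ∏ i, d (c i) = (1 - d c₀) ^ m := by
    rw [← Finset.prod_univ_sum, Finset.prod_const, Finset.card_univ, Fintype.card_fin]
    congr 1
    rw [← hsum, ← Finset.add_sum_erase _ _ (Finset.mem_univ c₀)]
    ring
  have h3 := Finset.sum_filter_add_sum_filter_not (Finset.univ : Finset (Fin m → C))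
    (fun c => c ∈ R) (fun c => ∏ i, d (c i))
  rw [h1] at h3
  have h4 : ∑ c ∈ Finset.univ.filter (fun c => ¬ c ∈ R), ∏ i, d (c i) ≤ (1 - d c₀) ^ m := by
    rw [← h2]
    refine Finset.sum_le_sum_of_subset_of_nonneg ?_ fun c _ _ =>
      Finset.prod_nonneg fun i _ => hd0 _
    intro c hc
    rw [Finset.mem_filter] at hc
    rw [Fintype.mem_piFinset]
    intro i
    rw [Finset.mem_erase]
    exact ⟨fun h => hc.2 (hR c ⟨i, h⟩), Finset.mem_univ _⟩
  have h5 : ∑ c ∈ Finset.univ.filter (fun c => c ∈ R), ∏ i, d (c i) =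
      1 - ∑ c ∈ Finset.univ.filter (fun c => ¬ c ∈ R), ∏ i, d (c i) := by linarith
  rw [h5]
  linarith

variable {F H G : Type} [Field F] [NumberField F] [Field H] [NumberField H] [Algebra F H]
  [CommGroup G] [Finite G] [MulSemiringAction G H]

open Classical in
theorem mainD [hG : IsGaloisGroup G F H]
    (D : RubinData F H G)
    {T₁ : Finset (HeightOneSpectrum (𝓞 F))} (h : D.Stark T₁) :
    ∃ (K : Type) (_ : Field K) (_ : NumberField K) (_ : Algebra F K) (_ : IsGalois F K)
      (bad : Finset (HeightOneSpectrum (𝓞 F))),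
      (∀ v : HeightOneSpectrum (𝓞 F), v ∉ bad → (D.Rubin {v} ↔ SplitsIn K v)) ∧
      ∀ T₀ : Finset (HeightOneSpectrum (𝓞 F)), Disjoint D.S T₀ → ∀ m : ℕ, ∃ a : ℕ,
        Tendsto (fun X : ℕ => (Nat.card {T : Finset (HeightOneSpectrum (𝓞 F)) //
            T.card = m ∧ (∀ v ∈ T, Ideal.absNorm v.asIdeal ≤ X) ∧ D.Rubin (T₀ ∪ T)} : ℝ) /
          (Nat.card {T : Finset (HeightOneSpectrum (𝓞 F)) //
            T.card = m ∧ ∀ v ∈ T, Ideal.absNorm v.asIdeal ≤ X} : ℝ)) atTop
          (𝓝 ((a : ℝ) / (Module.finrank F K : ℝ) ^ m)) ∧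
        1 - (1 - 1 / (Module.finrank F K : ℝ)) ^ m ≤ (a : ℝ) / (Module.finrank F K : ℝ) ^ m := by
  obtain ⟨K, _, _, _, hgal, bad, -, hsplit, hT⟩ := mainK D h
  let _ : Fintype (ConjClasses (K ≃ₐ[F] K)) := Fintype.ofFinite _
  obtain ⟨cl, bad₃, hcl1, hcl2, hdens, hsum⟩ := exists_cl (F := F) (L := K)
  obtain ⟨fin, hfin⟩ := allowed_single D
  refine ⟨K, inferInstance, inferInstance, inferInstance, hgal, bad, hsplit, ?_⟩
  intro T₀ hT₀ m
  obtain ⟨hdep, -⟩ := hT T₀ hT₀
  obtain ⟨-, Γ', -, hΓ'⟩ := hT ∅ (Finset.disjoint_empty_right _)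
  have htriv : ∀ v : HeightOneSpectrum (𝓞 F), v ∉ bad → ∀ q : HeightOneSpectrum (𝓞 K),
      FrobAt v q (1 : K ≃ₐ[F] K) → D.Rubin {v} := by
    intro v hv q hq
    have h1 := (hΓ' v hv (Finset.notMem_empty v) q 1 hq).2 Γ'.one_mem
    rwa [insert_empty_eq] at h1
  let B : Finset (HeightOneSpectrum (𝓞 F)) := bad ∪ T₀ ∪ D.S
  have hB : ∀ v, v ∉ B → v ∉ bad ∧ v ∉ T₀ ∧ v ∉ D.S := by
    intro v hv
    rw [Finset.mem_union, not_or, Finset.mem_union, not_or] at hv
    exact ⟨hv.1.1, hv.1.2, hv.2⟩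
  let R : Set (Fin m → ConjClasses (K ≃ₐ[F] K)) :=
    {c | ∃ w : Fin m → HeightOneSpectrum (𝓞 F), Function.Injective w ∧ (∀ i, w i ∉ B) ∧
      (fun i => cl (w i)) = c ∧ D.Rubin (T₀ ∪ Finset.univ.image w)}
  let Rub : Finset (HeightOneSpectrum (𝓞 F)) → Prop := fun T => D.Rubin (T₀ ∪ T)
  have hR : ∀ w : Fin m → HeightOneSpectrum (𝓞 F), Function.Injective w → (∀ i, w i ∉ B) →
      ((∃ _ : DecidableEq (HeightOneSpectrum (𝓞 F)), Rub (Finset.univ.image w)) ↔
        (fun i => cl (w i)) ∈ R) := by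
    intro w hw hwB
    constructor
    · rintro ⟨inst, h1⟩
      obtain rfl : inst = fun a b => Classical.propDecidable (a = b) := Subsingleton.elim _ _
      exact ⟨w, hw, hwB, rfl, h1⟩
    · rintro ⟨w', hw', hwB', hc, h1⟩
      refine ⟨_, (hdep (Finset.univ.image w') (Finset.univ.image w) ?_
        ((enumE w' hw').symm.trans (enumE w hw)) ?_).1 h1⟩
      · intro v hv
        rw [Finset.mem_union] at hv
        rcases hv with hv | hv
        · obtain ⟨i, -, rfl⟩ := Finset.mem_image.1 hv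
          exact ⟨(hB _ (hwB' i)).1, (hB _ (hwB' i)).2.1⟩
        · obtain ⟨i, -, rfl⟩ := Finset.mem_image.1 hv
          exact ⟨(hB _ (hwB i)).1, (hB _ (hwB i)).2.1⟩
      · intro v
        obtain ⟨i, rfl⟩ := (enumE w' hw').surjective v
        rw [Equiv.trans_apply, Equiv.symm_apply_apply, enumE_val, enumE_val]
        exact hcl2 _ _ (congrFun hc i)
  have hpi : Tendsto (fun X : ℕ => (Nat.primeCounting X : ℝ)) atTop atTop :=
    tendsto_natCast_atTop_atTop.comp Nat.tendsto_primeCounting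
  have key := limit m (fun v : HeightOneSpectrum (𝓞 F) => Ideal.absNorm v.asIdeal)
    Pool.Agent.W352.ChAbs.finite_le hpi cl _ hdens hsum B Rub R hR
  have hcard : Nat.card (K ≃ₐ[F] K) = Module.finrank F K := IsGalois.card_aut_eq_finrank F K
  have hval : ∑ c ∈ Finset.univ.filter (fun c => c ∈ R), ∏ i,
      (((c i).carrier.ncard : ℝ) / (Nat.card (K ≃ₐ[F] K) : ℝ)) =
      ((∑ c ∈ Finset.univ.filter (fun c => c ∈ R), ∏ i, (c i).carrier.ncard : ℕ) : ℝ) /
        (Module.finrank F K : ℝ) ^ m := by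
    rw [Nat.cast_sum, Finset.sum_div]
    refine Finset.sum_congr rfl fun c _ => ?_
    rw [Nat.cast_prod, Finset.prod_div_distrib, Finset.prod_const, Finset.card_univ,
      Fintype.card_fin, hcard]
  refine ⟨∑ c ∈ Finset.univ.filter (fun c => c ∈ R), ∏ i, (c i).carrier.ncard, ?_, ?_⟩
  · rw [← hval]
    exact key
  · rw [← hval]
    have h1 := sum_lower m (fun c : ConjClasses (K ≃ₐ[F] K) =>
      (c.carrier.ncard : ℝ) / (Nat.card (K ≃ₐ[F] K) : ℝ)) (fun c => by positivity) hsum
      (ConjClasses.mk 1) R ?_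
    · have h2 : (ConjClasses.mk (1 : K ≃ₐ[F] K)).carrier.ncard = 1 := by
        rw [Set.ncard_eq_one]
        refine ⟨1, ?_⟩
        ext x
        rw [ConjClasses.mem_carrier_iff_mk_eq, ConjClasses.mk_eq_mk_iff_isConj,
          Set.mem_singleton_iff]
        exact isConj_one_left
      simp only [h2, Nat.cast_one, hcard] at h1
      simp only [hcard]
      exact h1
    · rintro c ⟨i₀, hi₀⟩
      choose g hg using fun i => ConjClasses.exists_rep (c i)
      obtain ⟨w, hw, hwbad, hwF⟩ := realize g (B ∪ bad₃ ∪ fin)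
      have hw1 : ∀ i, w i ∉ B := fun i hi =>
        hwbad i (Finset.mem_union_left _ (Finset.mem_union_left _ hi))
      have hw2 : ∀ i, w i ∉ bad₃ := fun i hi =>
        hwbad i (Finset.mem_union_left _ (Finset.mem_union_right _ hi))
      have hw3 : ∀ i, w i ∉ fin := fun i hi => hwbad i (Finset.mem_union_right _ hi)
      refine ⟨w, hw, hw1, ?_, ?_⟩
      · funext i
        obtain ⟨Q, hQ⟩ := hwF i
        rw [← hcl1 (w i) (hw2 i) Q (g i) hQ]
        exact hg i
      · obtain ⟨Q, hQ⟩ := hwF i₀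
        have hg0 : g i₀ = 1 := by
          have h3 := hg i₀
          rw [hi₀] at h3
          exact isConj_one_left.1 (ConjClasses.mk_eq_mk_iff_isConj.1 h3)
        rw [hg0] at hQ
        have h1 := htriv (w i₀) (hB _ (hw1 i₀)).1 Q hQ
        refine rubin_mono D (w i₀) (hfin _ (hw3 i₀)).2.1 (hfin _ (hw3 i₀)).2.2 h1 _ ?_ ?_
        · rw [Finset.disjoint_union_right]
          refine ⟨hT₀, ?_⟩
          rw [Finset.disjoint_right]
          intro x hx
          obtain ⟨i, -, rfl⟩ := Finset.mem_image.1 hx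
          exact (hB _ (hw1 i)).2.2
        · exact Finset.mem_union_right _ (Finset.mem_image_of_mem _ (Finset.mem_univ _))

end Pool.Agent.J6H32.RT
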