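import Pool.Agent.J6H32.RT.LocT
import Pool.Agent.J6H32.RU.Main2
import Pool.Agent.J6H32.RU.Spl

/-!
# Rubin's conjecture and Frobenius classes: the main theorem
-/

set_option autoImplicit false
set_option linter.unusedSectionVars false

open NumberField IsDedekindDomain Polynomial commutatorElement

noncomputable section

namespace Pool.Agent.J6H32.RT

open Pool.Agent.K3h30.RS Pool.Agent.K3h8.RS Pool.Agent.K3h43.RS Pool.Agent.J6H32.RU

variable {F H G : Type} [Field F] [NumberField F] [Field H] [NumberField H] [Algebra F H]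
  [CommGroup G] [Finite G] [MulSemiringAction G H]

/-- `v` does not belong to `S` and `T₀` and does not divide `M` -/
def GoodPrime (D : RubinData F H G) (T₀ : Finset (HeightOneSpectrum (𝓞 F))) (M : ℕ)
    (v : HeightOneSpectrum (𝓞 F)) : Prop :=
  v ∉ D.S ∧ v ∉ T₀ ∧ (M : 𝓞 F) ∉ v.asIdeal

theorem exists_set [hG : IsGaloisGroup G F H] [DecidableEq (HeightOneSpectrum (𝓞 F))]
    (D : RubinData F H G)
    {T₁ : Finset (HeightOneSpectrum (𝓞 F))} (h : D.Stark T₁) :
    ∃ M : ℕ, 0 < M ∧ ∀ (L : Type) [Field L] [NumberField L] [Algebra F L] [Algebra H L]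
      [IsScalarTower F H L], (∃ ζ : L, IsPrimitiveRoot ζ M) →
      (∀ u ∈ D.U ∅, ∃ y : L, y ^ M = algebraMap H L ((u : Hˣ) : H)) →
      ∀ (T₀ : Finset (HeightOneSpectrum (𝓞 F))), Disjoint D.S T₀ →
      ∀ (ι : Type) [Fintype ι] [DecidableEq ι], ∃ R : Set (ι → (L ≃ₐ[F] L)),
        (∀ v : ι → HeightOneSpectrum (𝓞 F), Function.Injective v →
          (∀ t, GoodPrime D T₀ M (v t)) →
          ∀ g : ι → (L ≃ₐ[F] L), (∀ t, ∃ Q, FrobAt (v t) Q (g t)) →
            (D.Rubin (T₀ ∪ Finset.univ.image v) ↔ g ∈ R)) ∧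
        ∀ (g : ι → (L ≃ₐ[F] L)) (t₀ : ι), ∃ Γ' : Subgroup (L ≃ₐ[F] L),
          (∀ a, a ∈ Γ' ↔ Function.update g t₀ a ∈ R) ∧
            ∀ a b c d : L ≃ₐ[F] L, ⁅⁅a, b⁆, ⁅c, d⁆⁆ ∈ Γ' := by
  obtain ⟨u₁, e₁, s₁⟩ := stark_all D h ∅ (Finset.disjoint_empty_right _)
  let _ : DistribMulAction G (Additive (D.U ∅)) :=
    actionA (H := H) (G := G) Pool.Agent.K3h25.RS.t_TRANS
      (D.S : Set (HeightOneSpectrum (𝓞 F)))
      ((∅ : Finset (HeightOneSpectrum (𝓞 F))) : Set (HeightOneSpectrum (𝓞 F)))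
  have hfg' : AddGroup.FG (Additive (US D)) := fgA Pool.Agent.K3h25.RS.t_OVER D.S
  have hfg : AddGroup.FG (Additive (D.U ∅)) := by
    have h1 : Module.Finite ℤ (Additive (US D)) := Module.Finite.iff_addGroup_fg.2 hfg'
    have h2 : Module.Finite ℤ (Additive (D.U ∅)) :=
      Module.Finite.of_injective (inc D ∅).toIntLinearMap
        (Subgroup.inclusion_injective (U_le D ∅))
    exact Module.Finite.iff_addGroup_fg.1 h2
  obtain ⟨P, _, _, π, hPfg, hPfree, hP, hπ1, hπ⟩ := exists_pres G (Additive (D.U ∅))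
  have hπe : ∀ (γ : G) (p : P), ((Additive.toMul (π (γ • p)) : D.U ∅) : Hˣ) =
      act γ ((Additive.toMul (π p) : D.U ∅) : Hˣ) := by
    intro γ p
    rw [hπ1]
    rfl
  choose X hX using fun (k : Fin u₁.n) (j : Fin D.r) => hπ (Additive.ofMul (u₁.x k j))
  obtain ⟨N, hN, hc⟩ := exists_denom_all u₁.c
  obtain ⟨w, hw0, hw⟩ := exists_torsion (Additive (D.U ∅))
  have hM : 0 < N * w := Nat.mul_pos hN hw0
  refine ⟨N * w, hM, ?_⟩
  intro L _ _ _ _ _ hζL hroots T₀ hT₀ ι _ _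
  obtain ⟨ζ, hζ⟩ : ∃ ζ : Lˣ, orderOf ζ = N * w := by
    obtain ⟨ζ, hζ⟩ := hζL
    exact ⟨_, (hζ.isUnit_unit hM.ne').eq_orderOf.symm⟩
  obtain ⟨s, hs⟩ := exists_section ((io (L := L) D ∅).comp π) N (by
    intro p
    obtain ⟨y, hy⟩ := hroots _ (Additive.toMul (π p) : D.U ∅).2
    have hy0 : y ≠ 0 := by
      rintro rfl
      rw [zero_pow hM.ne'] at hy
      exact ((Additive.toMul (π p) : D.U ∅) : Hˣ).ne_zero ((map_eq_zero _).mp hy.symm)
    refine ⟨w • Additive.ofMul (Units.mk0 y hy0), ?_⟩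
    rw [smul_smul, ← ofMul_pow]
    apply Additive.toMul.injective
    apply Units.ext
    rw [toMul_ofMul, Units.val_pow_eq_pow_val, Units.val_mk0, hy]
    rfl)
  have hs' : ∀ p, N • s p = io D ∅ (π p) := hs
  obtain ⟨res, hres⟩ := exists_res F H L G
  obtain ⟨χ₀, hχ₀⟩ := exists_base hM ζ hζ
  obtain ⟨E, hE⟩ := Pool.Agent.K3h73.RS.lift_rat 1 (fun p hp => by rw [hP p hp, smul_zero])
    (χ₀.comp s)
  have hE' : ∀ p, ((E p : ℚ) : QZ) = χ₀ (s p) := by
    intro p
    rw [hE, one_smul]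
    rfl
  obtain ⟨Λ₀, -, hΛ₀⟩ := exists_hat (G := G) (N • E)
  have hζw : orderOf (ζ ^ w) = N := by
    rw [orderOf_pow_of_dvd hw0.ne' (by rw [hζ]; exact dvd_mul_left _ _), hζ,
      Nat.mul_div_cancel _ hw0]
  obtain ⟨K, hKr, hKκ, hKc⟩ := exists_coc (F := F) s (fun p => io D ∅ (π p)) hs' res (by
    intro g' p'
    apply Additive.toMul.injective
    apply Units.ext
    rw [au_val, io_val, io_val, hres, hπe, act_val]) (ζ ^ w) hζw hN χ₀
  -- the data at the prime ideals of `T₀`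
  have hT₀' : ∀ t : T₀, (t : HeightOneSpectrum (𝓞 F)) ∉ D.S := fun t ht =>
    Finset.disjoint_left.1 hT₀ ht t.2
  choose dat' hdat' using fun t : T₀ => exists_dat D hP π hπe t.1 (hT₀' t)
  refine ⟨{g | GoodT K u₁.c X (WsetT ι D.r π Λ₀ (fun t => (dat' t).Λ)) (fun t => dv D t.1)
        (fun t p => dv D t.1 * (dat' t).Λ p) g}, ?_, ?_⟩
  · intro v hinj hv g hg
    have hloc : ∀ t, ∃ d : Dat D π (v t), d.Rel Λ₀ K (g t) := by
      intro t
      obtain ⟨Q, hQ, hfr⟩ := hg t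
      obtain ⟨hv1, -, hv2⟩ := hv t
      have hvM : (v t).valuation F ((N * w : ℕ) : F) = 1 := by
        have h1 : (v t).valuation F (algebraMap (𝓞 F) F ((N * w : ℕ) : 𝓞 F)) ≤ 1 :=
          (v t).valuation_le_one (K := F) _
        have h2 : ¬ (v t).valuation F (algebraMap (𝓞 F) F ((N * w : ℕ) : 𝓞 F)) < 1 := by
          intro h3
          exact hv2 (((v t).valuation_lt_one_iff_mem (K := F) _).1 h3)
        have h3 := le_antisymm h1 (not_lt.mp h2)
        rwa [map_natCast] at h3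
      have hQM : Q.valuation L ((N * w : ℕ) : L) = 1 := by
        have h1 := val_eq (v t) Q hQ _ hvM
        rwa [map_natCast] at h1
      exact exists_loc D hM w rfl hw π hπe ζ hζ s hs' res hres
        χ₀ hχ₀ E hE' Λ₀ (fun γ p => by rw [hΛ₀, AddMonoidHom.nsmul_apply, nsmul_eq_mul]) K hKr hKκ
        hKc (v t) hv1 Q hQ hQM (g t) hfr
    choose dat hrel using hloc
    have himg : T₀ ∪ Finset.univ.image v =
        Finset.univ.image (Sum.elim v (Subtype.val : T₀ → HeightOneSpectrum (𝓞 F))) := by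
      ext x
      simp only [Finset.mem_union, Finset.mem_image, Finset.mem_univ, true_and, Sum.exists,
        Sum.elim_inl, Sum.elim_inr, Subtype.exists, exists_prop, exists_eq_right]
      rw [or_comm]
    rw [himg]
    refine rubin_iff_goodT D hP hN π hπ hπe K u₁ e₁ s₁ X hX hc Λ₀ v Subtype.val ?_ ?_ g dat dat'
      hdat' hrel
    · rintro (a | a) (b | b) hab
      · exact congrArg _ (hinj hab)
      · exfalso
        apply (hv a).2.1
        rw [show v a = (b : HeightOneSpectrum (𝓞 F)) from hab]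
        exact b.2
      · exfalso
        apply (hv b).2.1
        rw [show v b = (a : HeightOneSpectrum (𝓞 F)) from hab.symm]
        exact a.2
      · exact congrArg _ (Subtype.ext hab)
    · rintro (t | t)
      · exact (hv t).1
      · exact hT₀' t
  · intro g t₀
    have h1 : ∀ t : T₀, dv D t.1 ∈ (toQ (G := G)).range := fun t =>
      sub_mem (one_mem _) ⟨MonoidAlgebra.single (D.σ t.1)⁻¹
        (Ideal.absNorm t.1.asIdeal : ℤ), by simp [toQ]⟩
    obtain ⟨Γ', hΓ'⟩ := exists_goodSubT hN K u₁.c X hc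
      (WsetT ι D.r π Λ₀ (fun t => (dat' t).Λ)) _ _ h1 hdat' hP g t₀
    refine ⟨Γ', hΓ', fun a b c d => (hΓ' _).2 ?_⟩
    exact goodT_comm hN K u₁.c X hc _ _ _ h1 hdat' hP g t₀ a b c d

end Pool.Agent.J6H32.RT
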